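import Pool.Agent.R216.BOU.Basic

/-! Uniform convergence of equi-Lipschitz families. -/

namespace Pool.Agent.R216.BOU

open MeasureTheory Set Filter Topology
open scoped ENNReal ComplexConjugate Uniformity

variable {ι : Type*} {U : Filter ι} [NeBot U]

lemma unif_of_lip {E : Type*} [NormedAddCommGroup E] {f : ι → ℝ → E} {f₀ : ℝ → E} {T Λ : ℝ}
    (hL : ∀ᶠ i in U, ∀ s ∈ Icc 0 T, ∀ t ∈ Icc 0 T, ‖f i t - f i s‖ ≤ Λ * |t - s|)
    (hlim : ∀ t ∈ Icc 0 T, Tendsto (fun i => f i t) U (𝓝 (f₀ t))) :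
    TendstoUniformlyOn f f₀ U (Icc 0 T) := by
  have hL0 : ∀ s ∈ Icc 0 T, ∀ t ∈ Icc 0 T, ‖f₀ t - f₀ s‖ ≤ Λ * |t - s| := by
    intro s hs t ht
    exact le_of_tendsto ((hlim t ht).sub (hlim s hs)).norm
      (hL.mono fun i hi => hi s hs t ht)
  rw [Metric.tendstoUniformlyOn_iff]
  intro ε hε
  set δ : ℝ := ε / (4 * (|Λ| + 1)) with hδ
  have hΛ : 0 < |Λ| + 1 := by positivity
  have hδ0 : 0 < δ := by positivity
  obtain ⟨F, hF1, hF2⟩ := (isCompact_Icc (a := (0 : ℝ)) (b := T)).elim_finite_subcover_image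
    (b := Icc 0 T) (c := fun x => Metric.ball x δ) (fun x _ => Metric.isOpen_ball)
    (fun x hx => mem_iUnion₂.2 ⟨x, hx, Metric.mem_ball_self hδ0⟩)
  obtain ⟨hFfin, hF3⟩ := hF2
  have h1 : ∀ᶠ i in U, ∀ x ∈ F, ‖f i x - f₀ x‖ < ε / 4 := by
    rw [hFfin.eventually_all]
    intro x hx
    have := (hlim x (hF1 hx))
    rw [Metric.tendsto_nhds] at this
    have := this (ε / 4) (by positivity)
    simpa [dist_eq_norm] using this
  filter_upwards [h1, hL] with i h1 h2 s hs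
  obtain ⟨x, hxF, hx⟩ := mem_iUnion₂.1 (hF3 hs)
  have hx' : |s - x| < δ := by simpa [Real.dist_eq] using hx
  have hxT := hF1 hxF
  have a1 := h2 x hxT s hs
  have a2 := hL0 x hxT s hs
  have a3 := h1 x hxF
  have a4 : Λ * |s - x| ≤ ε / 4 := by
    calc Λ * |s - x| ≤ (|Λ| + 1) * δ := by
          have : Λ ≤ |Λ| + 1 := by linarith [le_abs_self Λ]
          exact mul_le_mul this hx'.le (abs_nonneg _) hΛ.le
      _ = ε / 4 := by rw [hδ]; field_simp
  rw [dist_eq_norm]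
  have e : f₀ s - f i s = (f₀ s - f₀ x) - (f i x - f₀ x) - (f i s - f i x) := by abel
  rw [e]
  have b1 := norm_sub_le ((f₀ s - f₀ x) - (f i x - f₀ x)) (f i s - f i x)
  have b2 := norm_sub_le (f₀ s - f₀ x) (f i x - f₀ x)
  linarith

lemma unif_pi {X : Type*} {f : ι → ℝ → (X → C3)} {f₀ : ℝ → (X → C3)} {S : Set ℝ}
    (h : ∀ x, TendstoUniformlyOn (fun i t => f i t x) (fun t => f₀ t x) U S) :
    TendstoUniformlyOn f f₀ U S := by
  rw [tendstoUniformlyOn_iff_tendsto, Pi.uniformity]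
  simp only [tendsto_iInf, tendsto_comap_iff]
  intro x
  exact tendstoUniformlyOn_iff_tendsto.1 (h x)

lemma unif_comp {X E : Type*} [NormedAddCommGroup E] {f : ι → ℝ → (X → C3)} {f₀ : ℝ → (X → C3)}
    {S : Set ℝ} {M : ℝ} (hM : ∀ᶠ i in U, ∀ t ∈ S, ∀ x, ‖f i t x‖ ≤ M)
    (h : ∀ x, TendstoUniformlyOn (fun i t => f i t x) (fun t => f₀ t x) U S)
    {Φ : (X → C3) → E} (hΦ : Continuous Φ) :
    TendstoUniformlyOn (fun i t => Φ (f i t)) (fun t => Φ (f₀ t)) U S := by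
  have hK : IsCompact (Set.pi univ (fun _ : X => Metric.closedBall (0 : C3) M)) :=
    isCompact_univ_pi fun _ => isCompact_closedBall _ _
  have hu := hK.uniformContinuousOn_of_continuous hΦ.continuousOn
  have h0 : ∀ t ∈ S, f₀ t ∈ Set.pi univ (fun _ : X => Metric.closedBall (0 : C3) M) := by
    intro t ht x _
    rw [mem_closedBall_zero_iff]
    exact le_of_tendsto ((h x).tendsto_at ht).norm (hM.mono fun i hi => hi t ht x)
  rw [tendstoUniformlyOn_iff_tendsto]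
  unfold UniformContinuousOn at hu
  refine hu.comp (tendsto_inf.2 ⟨tendstoUniformlyOn_iff_tendsto.1 (unif_pi h), ?_⟩)
  rw [tendsto_principal, eventually_prod_principal_iff]
  filter_upwards [hM] with i hi t ht
  exact ⟨h0 t ht, fun x _ => mem_closedBall_zero_iff.2 (hi t ht x)⟩

lemma tendsto_integral_of_unif {E : Type*} [NormedAddCommGroup E] [NormedSpace ℝ E]
    {f : ι → ℝ → E} {f₀ : ℝ → E} {T : ℝ} (hT : 0 ≤ T)
    (h : TendstoUniformlyOn f f₀ U (Icc 0 T)) (hc : ∀ᶠ i in U, ContinuousOn (f i) (Icc 0 T)) :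
    Tendsto (fun i => ∫ s in (0 : ℝ)..T, f i s) U (𝓝 (∫ s in (0 : ℝ)..T, f₀ s)) := by
  have hc0 : ContinuousOn f₀ (Icc 0 T) := h.continuousOn hc.frequently
  have hu := uIcc_of_le hT
  rw [Metric.tendsto_nhds]
  intro ε hε
  rw [Metric.tendstoUniformlyOn_iff] at h
  filter_upwards [h (ε / (T + 1)) (by positivity), hc] with i h1 h2
  rw [dist_eq_norm, ← intervalIntegral.integral_sub]
  · have : ‖∫ s in (0 : ℝ)..T, (f i s - f₀ s)‖ ≤ ε / (T + 1) * |T - 0| := by
      apply intervalIntegral.norm_integral_le_of_norm_le_const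
      intro s hs
      rw [uIoc_of_le hT] at hs
      have := h1 s ⟨hs.1.le, hs.2⟩
      rw [dist_comm, dist_eq_norm] at this
      exact this.le
    refine this.trans_lt ?_
    rw [sub_zero, abs_of_nonneg hT, div_mul_eq_mul_div, div_lt_iff₀ (by positivity)]
    nlinarith
  · exact (hu ▸ h2).intervalIntegrable
  · exact (hu ▸ hc0).intervalIntegrable

end Pool.Agent.R216.BOU
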