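import Pool.Agent.R216.BOU.Rhs
import Pool.Agent.R216.BOU.Unif

/-! Coefficientwise limits of weak solutions are weak solutions. -/

namespace Pool.Agent.R216.BOU

open MeasureTheory Set Filter Topology
open scoped ENNReal ComplexConjugate

/-- truncated right-hand side -/
noncomputable def PhiG (L ν g : ℝ) (F : Finset (ℤ × ℤ)) (k : ℤ × ℤ) (y : ℤ × ℤ → C3) : C3 :=
  Rk L ν g k (y k) (convG F k y)

attribute [local irreducible] Rk

lemma continuous_PhiG (L ν g : ℝ) (F : Finset (ℤ × ℤ)) (k : ℤ × ℤ) :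
    Continuous (PhiG L ν g F k) :=
  (Rk_continuous L ν g k).comp ((continuous_apply k).prodMk (continuous_convG F k))

/-- truncated gradient norm -/
noncomputable def gF (L : ℝ) (F : Finset (ℤ × ℤ)) (y : ℤ × ℤ → C3) : ℝ :=
  ∑ k ∈ F, wt L k * vsq (y k)

lemma continuous_gF (L : ℝ) (F : Finset (ℤ × ℤ)) : Continuous (gF L F) := by
  unfold gF
  exact continuous_finsetSum F fun k _ =>
    continuous_const.mul (continuous_vsq.comp (continuous_apply k))

lemma gF_nonneg (L : ℝ) (F : Finset (ℤ × ℤ)) (y : ℤ × ℤ → C3) : 0 ≤ gF L F y :=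
  Finset.sum_nonneg fun k _ => mul_nonneg (wt_nonneg L k) (vsq_nonneg _)

lemma gF_le (L : ℝ) (F : Finset (ℤ × ℤ)) (z : St) :
    ENNReal.ofReal (gF L F z) ≤ gradSq L z := by
  unfold gF
  rw [ENNReal.ofReal_sum_of_nonneg fun k _ => mul_nonneg (wt_nonneg L k) (vsq_nonneg _),
    gradSq_eq]
  exact ENNReal.sum_le_tsum F

lemma contOn_comp {E : Type*} [TopologicalSpace E] {z : ℝ → St} {S : Set ℝ}
    (hc : ∀ k, ContinuousOn (fun t => z t k) S) {Φ : (ℤ × ℤ → C3) → E} (hΦ : Continuous Φ) :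
    ContinuousOn (fun t => Φ (z t)) S :=
  hΦ.comp_continuousOn (continuousOn_pi.2 hc)

lemma gF_integral {L T : ℝ} (hT : 0 ≤ T) {z : ℝ → St}
    (hc : ∀ k, ContinuousOn (fun t => z t k) (Icc 0 T)) (F : Finset (ℤ × ℤ)) :
    ENNReal.ofReal (∫ t in (0 : ℝ)..T, gF L F (z t)) =
      ∫⁻ t in Icc 0 T, ENNReal.ofReal (gF L F (z t)) := by
  rw [intervalIntegral.integral_of_le hT, ← integral_Icc_eq_integral_Ioc]
  exact ofReal_integral_eq_lintegral_ofReal
    ((contOn_comp hc (continuous_gF L F)).integrableOn_Icc)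
    (Eventually.of_forall fun t => gF_nonneg L F _)

lemma trunc {L ν g : ℝ} {k : ℤ × ℤ} {C : ℝ} (hC0 : 0 ≤ C)
    (hC : ∀ a v, ‖Rk L ν g k a v‖ ≤ C * (‖a‖ + ‖v‖)) {R : ℝ} (hR : 0 < R)
    {F : Finset (ℤ × ℤ)} (hF : ∀ l, l ∉ F → R ^ 2 ≤ wt L l) {z : ℝ → St} {T M G : ℝ} (hT : 0 ≤ T)
    (hG : 0 ≤ G) (hc : ∀ k, ContinuousOn (fun t => z t k) (Icc 0 T))
    (hM : ∀ t ∈ Icc 0 T, ‖z t‖ ≤ M)
    (hgr : ∫⁻ t in Icc 0 T, gradSq L (z t) ≤ ENNReal.ofReal G) :
    ‖(∫ s in (0 : ℝ)..T, rhs L ν g (z s) k) - ∫ s in (0 : ℝ)..T, PhiG L ν g F k (z s)‖ ≤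
      C * (√(nsq k) / (2 * R)) * (G + M ^ 2 * T) := by
  have hu := uIcc_of_le hT
  have i1 : IntervalIntegrable (fun s => rhs L ν g (z s) k) volume 0 T := by
    have h1 : IntegrableOn (fun t => rhs L ν g (z t) k) (Icc 0 T) := rhs_integrableOn hc hM k
    rw [← hu] at h1
    exact h1.intervalIntegrable
  have i2 : IntervalIntegrable (fun s => PhiG L ν g F k (z s)) volume 0 T :=
    (hu ▸ contOn_comp hc (continuous_PhiG L ν g F k)).intervalIntegrable
  rw [← intervalIntegral.integral_sub i1 i2, intervalIntegral.integral_of_le hT]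
  have hnn : 0 ≤ C * (√(nsq k) / (2 * R)) * (G + M ^ 2 * T) := by positivity
  rw [← ENNReal.ofReal_le_ofReal_iff hnn, ofReal_norm]
  refine (enorm_integral_le_lintegral_enorm _).trans ?_
  refine (lintegral_mono_set Ioc_subset_Icc_self).trans ?_
  have h3 : ∀ s ∈ Icc 0 T, ‖rhs L ν g (z s) k - PhiG L ν g F k (z s)‖ₑ ≤
      ENNReal.ofReal (C * (√(nsq k) / (2 * R))) *
        (gradSq L (z s) + ENNReal.ofReal (M ^ 2)) := by
    intro s hs
    have e : rhs L ν g (z s) k - PhiG L ν g F k (z s) =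
        Rk L ν g k 0 (conv (z s) k - convF F (z s) k) := Rk_sub L ν g k _ _ _
    rw [e]
    have h4 : ‖Rk L ν g k 0 (conv (z s) k - convF F (z s) k)‖ ≤
        C * ‖conv (z s) k - convF F (z s) k‖ := by
      have := hC 0 (conv (z s) k - convF F (z s) k)
      rwa [norm_zero, zero_add] at this
    rw [← ofReal_norm]
    refine (ENNReal.ofReal_le_ofReal h4).trans ?_
    rw [ENNReal.ofReal_mul hC0, ENNReal.ofReal_mul hC0, mul_assoc, ofReal_norm]
    gcongr
    refine (conv_tail hR F hF (z s) k).trans ?_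
    gcongr
    exact hM s hs
  refine (setLIntegral_mono' measurableSet_Icc h3).trans ?_
  rw [lintegral_const_mul' _ _ ENNReal.ofReal_ne_top, lintegral_add_right _ measurable_const,
    setLIntegral_const, Real.volume_Icc, sub_zero,
    ENNReal.ofReal_mul (by positivity : 0 ≤ C * (√(nsq k) / (2 * R))),
    ENNReal.ofReal_add hG (by positivity), ENNReal.ofReal_mul (by positivity : 0 ≤ M ^ 2)]
  gcongr

variable {ι : Type*} {U : Filter ι} [NeBot U] {L ν g : ℝ}

lemma isState_lim {y : ι → St} {w : St} (hy : ∀ᶠ i in U, IsState (y i))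
    (hlim : ∀ k, Tendsto (fun i => y i k) U (𝓝 (w k))) : IsState w := by
  have hc : ∀ k j, Tendsto (fun i => y i k j) U (𝓝 (w k j)) := fun k j =>
    ((continuous_coord j).tendsto _).comp (hlim k)
  refine ⟨⟨?_, ?_⟩, ?_, ?_⟩
  · exact tendsto_nhds_unique (hc 0 0)
      (tendsto_const_nhds.congr' (hy.mono fun i hi => hi.1.1.symm))
  · exact tendsto_nhds_unique (hc 0 1)
      (tendsto_const_nhds.congr' (hy.mono fun i hi => hi.1.2.symm))
  · intro k
    exact tendsto_nhds_unique (((continuous_dot k).tendsto _).comp (hlim k))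
      (tendsto_const_nhds.congr' (hy.mono fun i hi => (hi.2.1 k).symm))
  · intro k j
    refine tendsto_nhds_unique (hc (-k) j) ?_
    exact ((Complex.continuous_conj.tendsto _).comp (hc k j)).congr'
      (hy.mono fun i hi => (hi.2.2 k j).symm)

lemma key (hL : 0 < L) {z : ι → ℝ → St} {w : ℝ → St} {M : ℝ}
    (hw : ∀ᶠ i in U, IsWeak L ν g (z i))
    (hM : ∀ᶠ i in U, ∀ t, 0 ≤ t → ‖z i t‖ ≤ M)
    (hM0 : ∀ t, 0 ≤ t → ‖w t‖ ≤ M)
    (hC : ∀ T, 0 ≤ T → ∃ C : ℝ, 0 ≤ C ∧
      ∀ᶠ i in U, ∫⁻ t in Icc 0 T, gradSq L (z i t) ≤ ENNReal.ofReal C)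
    (hlim : ∀ t, 0 ≤ t → ∀ k, Tendsto (fun i => z i t k) U (𝓝 (w t k))) :
    IsWeak L ν g w := by
  -- uniform convergence
  have hunif : ∀ T k, TendstoUniformlyOn (fun i t => z i t k) (fun t => w t k) U (Icc 0 T) := by
    intro T k
    obtain ⟨Λ, hΛ0, hΛ⟩ := rhs_norm_le (L := L) (ν := ν) (g := g) k M
    refine unif_of_lip (Λ := Λ) ?_ fun t ht => hlim t ht.1 k
    filter_upwards [hw, hM] with i h1 h2
    exact h1.lip (fun t ht => h2 t ht.1) hΛ
  have hcont : ∀ k, ContinuousOn (fun t => w t k) (Ici 0) := by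
    intro k t ht
    have h1 : ContinuousOn (fun t => w t k) (Icc 0 (t + 1)) :=
      (hunif (t + 1) k).continuousOn
        (hw.mono fun i hi => (hi.cont k).mono Icc_subset_Ici_self).frequently
    have h2 := h1 t ⟨ht, by linarith⟩
    refine h2.mono_of_mem_nhdsWithin ?_
    rw [mem_nhdsWithin]
    exact ⟨Iio (t + 1), isOpen_Iio, by simp, fun s hs => ⟨hs.2, le_of_lt hs.1⟩⟩
  have hcomp : ∀ {E : Type} [NormedAddCommGroup E] [NormedSpace ℝ E] (Φ : (ℤ × ℤ → C3) → E),
      Continuous Φ → ∀ T, 0 ≤ T →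
      Tendsto (fun i => ∫ s in (0 : ℝ)..T, Φ (z i s)) U (𝓝 (∫ s in (0 : ℝ)..T, Φ (w s))) := by
    intro E _ _ Φ hΦ T hT
    refine tendsto_integral_of_unif hT (unif_comp (M := M) ?_ (hunif T) hΦ) ?_
    · filter_upwards [hM] with i h2 t ht k
      exact (norm_coef_le _ k).trans (h2 t ht.1)
    · filter_upwards [hw] with i h1
      exact contOn_comp (fun k => (h1.cont k).mono Icc_subset_Ici_self) hΦ
  have hgrad : ∀ T, 0 ≤ T → ∀ C : ℝ, 0 ≤ C →
      (∀ᶠ i in U, ∫⁻ t in Icc 0 T, gradSq L (z i t) ≤ ENNReal.ofReal C) →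
      ∫⁻ t in Icc 0 T, gradSq L (w t) ≤ ENNReal.ofReal C := by
    intro T hT C hC0 hC
    have hm : ∀ k, AEMeasurable (fun t => ENNReal.ofReal (wt L k * vsq (w t k)))
        (volume.restrict (Icc 0 T)) := by
      intro k
      have h1 : ContinuousOn (fun t => wt L k * vsq (w t k)) (Icc 0 T) :=
        continuousOn_const.mul
          (continuous_vsq.comp_continuousOn ((hcont k).mono Icc_subset_Ici_self))
      exact (h1.aemeasurable measurableSet_Icc).ennreal_ofReal
    simp_rw [gradSq_eq]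
    rw [lintegral_tsum hm, ENNReal.tsum_eq_iSup_sum]
    refine iSup_le fun F => ?_
    rw [← lintegral_finsetSum' F (fun k _ => hm k)]
    have h2 : ∀ t, ∑ k ∈ F, ENNReal.ofReal (wt L k * vsq (w t k)) =
        ENNReal.ofReal (gF L F (w t)) := by
      intro t
      rw [gF, ENNReal.ofReal_sum_of_nonneg fun k _ => mul_nonneg (wt_nonneg L k) (vsq_nonneg _)]
    simp_rw [h2]
    rw [← gF_integral hT (fun k => (hcont k).mono Icc_subset_Ici_self)]
    refine le_of_tendsto ((ENNReal.continuous_ofReal.tendsto _).comp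
      (hcomp (gF L F) (continuous_gF L F) T hT)) ?_
    filter_upwards [hC, hw] with i h3 h4
    simp only [Function.comp]
    rw [gF_integral hT (fun k => (h4.cont k).mono Icc_subset_Ici_self)]
    exact (lintegral_mono fun t => gF_le L F _).trans h3
  refine ⟨fun t ht => isState_lim (hw.mono fun i hi => hi.state t ht) (hlim t ht), hcont,
    fun T => ⟨M, fun t ht => hM0 t ht.1⟩, fun T => ?_, fun T hT k => ?_⟩
  · obtain ⟨C, hC0, hC1⟩ := hC (max T 0) (le_max_right _ _)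
    refine lt_of_le_of_lt ?_ ENNReal.ofReal_lt_top (a := _) (b := ENNReal.ofReal C)
    exact (lintegral_mono_set (Icc_subset_Icc_right (le_max_left _ _))).trans
      (hgrad _ (le_max_right _ _) C hC0 hC1)
  · obtain ⟨C, hC0, hC1⟩ := hC T hT
    have hg1 := hgrad T hT C hC0 hC1
    obtain ⟨c, hc0, hc⟩ := Rk_bound L ν g k
    set K : ℝ := c * √(nsq k) / 2 * (C + M ^ 2 * T) with hK
    have hK0 : 0 ≤ K := by positivity
    have hall : ∀ R : ℝ, 0 < R → ‖(w T k - w 0 k) - ∫ s in (0 : ℝ)..T, rhs L ν g (w s) k‖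
        ≤ 2 * K / R := by
      intro R hR
      obtain ⟨F, hF⟩ := exists_low L R hL
      have a1 := trunc hc0 hc hR hF (z := w) hT hC0
        (fun k => (hcont k).mono Icc_subset_Ici_self) (fun t ht => hM0 t ht.1) hg1
      have a2 : ‖(w T k - w 0 k) - ∫ s in (0 : ℝ)..T, PhiG L ν g F k (w s)‖ ≤
          c * (√(nsq k) / (2 * R)) * (C + M ^ 2 * T) := by
        refine le_of_tendsto (((hlim T hT k).sub (hlim 0 le_rfl k)).sub
          (hcomp (PhiG L ν g F k) (continuous_PhiG L ν g F k) T hT)).norm ?_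
        filter_upwards [hw, hM, hC1] with i h1 h2 h3
        have h4 := trunc hc0 hc hR hF (z := z i) hT hC0
          (fun k => (h1.cont k).mono Icc_subset_Ici_self) (fun t ht => h2 t ht.1) h3
        rwa [← h1.eqn' le_rfl hT k] at h4
      have e : c * (√(nsq k) / (2 * R)) * (C + M ^ 2 * T) = K / R := by
        rw [hK]; field_simp
      rw [e] at a1 a2
      have e2 : (w T k - w 0 k) - ∫ s in (0 : ℝ)..T, rhs L ν g (w s) k =
          ((w T k - w 0 k) - ∫ s in (0 : ℝ)..T, PhiG L ν g F k (w s)) -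
          ((∫ s in (0 : ℝ)..T, rhs L ν g (w s) k) - ∫ s in (0 : ℝ)..T, PhiG L ν g F k (w s)) := by
        abel
      rw [e2]
      refine (norm_sub_le _ _).trans ?_
      calc _ ≤ K / R + K / R := add_le_add a2 a1
        _ = 2 * K / R := by ring
    have hz : ‖(w T k - w 0 k) - ∫ s in (0 : ℝ)..T, rhs L ν g (w s) k‖ = 0 := by
      refine le_antisymm ?_ (norm_nonneg _)
      refine le_of_forall_pos_le_add fun ε hε => ?_
      have h1 := hall ((2 * K + 1) / ε) (by positivity)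
      refine h1.trans ?_
      rw [zero_add, div_div_eq_mul_div, div_le_iff₀ (by positivity)]
      nlinarith
    rw [norm_eq_zero, sub_eq_zero] at hz
    rw [← hz]; abel

end Pool.Agent.R216.BOU
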