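import Pool.Agent.R216.BOU.Weak

/-! Adding an oscillating temperature. -/

namespace Pool.Agent.R216.BOU

open MeasureTheory Set Filter Topology
open scoped ENNReal ComplexConjugate

lemma sg_apply (k : ℤ × ℤ) (a : C3) (l : ℤ × ℤ) : sg k a l = if l = k then a else 0 := by
  unfold sg
  rw [lp.single_apply, Pi.single_apply]

lemma pert {L : ℝ} {a : St} (ha : IsState a) {r : ℝ} (hr : tSq a < r ^ 2) (m : ℕ) :
    ∃ b : St, IsState b ∧ tSq b = r ^ 2 ∧ gradSq L b = gradSq L a ∧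
      ∀ k : ℤ × ℤ, |k.1| < (m : ℤ) + 1 → b k = a k := by
  set K : ℤ × ℤ := ((m : ℤ) + 1, 0) with hK
  have hKne : K ≠ -K := by
    intro h
    have := congrArg Prod.fst h
    simp only [hK, Prod.fst_neg] at this
    omega
  set β : ℝ := √((r ^ 2 - tSq a) / 2 + ‖a K 2‖ ^ 2) with hβ
  have hβ2 : β ^ 2 = (r ^ 2 - tSq a) / 2 + ‖a K 2‖ ^ 2 := by
    refine Real.sq_sqrt ?_
    have : 0 ≤ (r ^ 2 - tSq a) / 2 := by linarith
    positivity
  set v₁ : C3 := WithLp.toLp 2 ![0, 0, (β : ℂ) - a K 2] with hv₁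
  set v₂ : C3 := WithLp.toLp 2 ![0, 0, (β : ℂ) - a (-K) 2] with hv₂
  set b : St := a + sg K v₁ + sg (-K) v₂ with hb
  have hbk : ∀ k, b k = a k + (if k = K then v₁ else 0) + (if k = -K then v₂ else 0) := by
    intro k
    rw [hb, lp.coeFn_add, Pi.add_apply, lp.coeFn_add, Pi.add_apply, sg_apply, sg_apply]
  have hb0 : ∀ k, b k 0 = a k 0 := by
    intro k
    rw [hbk]
    split_ifs <;> simp [hv₁, hv₂]
  have hb1 : ∀ k, b k 1 = a k 1 := by
    intro k
    rw [hbk]
    split_ifs <;> simp [hv₁, hv₂]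
  have hb2 : ∀ k, b k 2 = if k = K ∨ k = -K then (β : ℂ) else a k 2 := by
    intro k
    rw [hbk]
    by_cases h1 : k = K
    · have h2 : k ≠ -K := fun h => hKne (h1 ▸ h)
      simp [h1, hKne, hv₁]
    · by_cases h2 : k = -K
      · simp [h2, hKne.symm, hv₂]
      · simp [h1, h2]
  have hvs : ∀ k, vsq (b k) = vsq (a k) := fun k => by unfold vsq; rw [hb0, hb1]
  refine ⟨b, ⟨⟨?_, ?_⟩, ?_, ?_⟩, ?_, ?_, ?_⟩
  · rw [hb0]; exact ha.1.1
  · rw [hb1]; exact ha.1.2
  · intro k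
    have := ha.2.1 k
    unfold dot at this ⊢
    rw [hb0, hb1]
    exact this
  · intro k j
    fin_cases j
    · show b (-k) 0 = conj (b k 0)
      rw [hb0, hb0]; exact ha.2.2 k 0
    · show b (-k) 1 = conj (b k 1)
      rw [hb1, hb1]; exact ha.2.2 k 1
    · show b (-k) 2 = conj (b k 2)
      rw [hb2, hb2]
      have e : (-k = K ∨ -k = -K) ↔ (k = K ∨ k = -K) := by
        rw [neg_eq_iff_eq_neg, neg_inj, or_comm]
      simp only [e]
      split_ifs
      · exact (Complex.conj_ofReal β).symm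
      · exact ha.2.2 k 2
  · have h1 : tSq b - tSq a = ∑' k, (‖b k 2‖ ^ 2 - ‖a k 2‖ ^ 2) := by
      rw [tSq, tSq, (summable_tsq b).tsum_sub (summable_tsq a)]
    have h2 : ∑' k, (‖b k 2‖ ^ 2 - ‖a k 2‖ ^ 2) =
        ∑ k ∈ ({K, -K} : Finset (ℤ × ℤ)), (‖b k 2‖ ^ 2 - ‖a k 2‖ ^ 2) := by
      refine tsum_eq_sum fun k hk => ?_
      have : ¬ (k = K ∨ k = -K) := by simpa using hk
      rw [hb2, if_neg this, sub_self]
    rw [h2, Finset.sum_pair hKne] at h1
    have h3 : ‖a (-K) 2‖ = ‖a K 2‖ := by rw [ha.2.2 K 2, Complex.norm_conj]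
    have h4 : ‖b K 2‖ ^ 2 = β ^ 2 := by
      rw [hb2, if_pos (Or.inl rfl), Complex.norm_real, Real.norm_eq_abs, sq_abs]
    have h5 : ‖b (-K) 2‖ ^ 2 = β ^ 2 := by
      rw [hb2, if_pos (Or.inr rfl), Complex.norm_real, Real.norm_eq_abs, sq_abs]
    rw [h3, h4, h5] at h1
    linarith
  · unfold gradSq
    exact tsum_congr fun k => by rw [hvs]
  · intro k hk
    have h1 : k ≠ K := by
      intro h
      rw [h] at hk
      simp only [hK] at hk
      rw [abs_of_nonneg (by positivity)] at hk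
      omega
    have h2 : k ≠ -K := by
      intro h
      rw [h] at hk
      simp only [hK, Prod.fst_neg, abs_neg] at hk
      rw [abs_of_nonneg (by positivity)] at hk
      omega
    rw [hbk, if_neg h1, if_neg h2, add_zero, add_zero]

end Pool.Agent.R216.BOU
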