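import Pool.Agent.R216.BOU.Bounds
import Pool.Agent.R216.BOU.Pert
import Pool.Agent.R216.BOU.Key

/-! Points of the attractor lie in a weak omega-limit set of a level set. -/

namespace Pool.Agent.R216.BOU

open MeasureTheory Set Filter Topology
open scoped ENNReal ComplexConjugate

variable {L ν g : ℝ} {S : ℝ → St → St}

/-- good radii -/
lemma exists_radius (hL : 0 < L) (hν : 0 < ν) (hg : 0 < g) (ρ C : ℝ) (hρ : 0 ≤ ρ) (hC : 0 ≤ C) :
    ∃ r : ℝ, 0 ≤ r ∧ ρ < r ^ 2 ∧ C ≤ RR L ν g r ^ 2 := by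
  have hk := kk_pos hL
  refine ⟨√ρ + 1 + √C * (ν * kk L) / (2 * g), by positivity, ?_, ?_⟩
  · have h1 : 0 ≤ √C * (ν * kk L) / (2 * g) := by positivity
    have h2 : (√ρ + 1) ^ 2 ≤ (√ρ + 1 + √C * (ν * kk L) / (2 * g)) ^ 2 :=
      pow_le_pow_left₀ (by positivity) (by linarith) 2
    have h3 : √ρ ^ 2 = ρ := Real.sq_sqrt hρ
    nlinarith [Real.sqrt_nonneg ρ]
  · have h1 : √C ≤ RR L ν g (√ρ + 1 + √C * (ν * kk L) / (2 * g)) := by
      have e : RR L ν g (√ρ + 1 + √C * (ν * kk L) / (2 * g)) =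
          2 * g * (√ρ + 1) / (ν * kk L) + √C := by
        unfold RR
        rw [show (2 * Real.pi / L) ^ 2 = kk L from rfl]
        field_simp
      rw [e]
      have : 0 ≤ 2 * g * (√ρ + 1) / (ν * kk L) := by positivity
      linarith
    calc C = √C ^ 2 := (Real.sq_sqrt hC).symm
      _ ≤ _ := pow_le_pow_left₀ (Real.sqrt_nonneg _) h1 2

/-- weak continuity of the semigroup along oscillating perturbations -/
lemma weak_cont (hL : 0 < L) (hν : 0 < ν) (hg : 0 < g) (hS : IsSemigroup L ν g S)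
    {r : ℝ} {a : St} (ha : IsState a) {b : ℕ → St} (hb : ∀ m, b m ∈ Btilde L ν g r)
    (hlim : ∀ k, Tendsto (fun m => b m k) atTop (𝓝 (a k))) {t : ℝ} (ht : 0 ≤ t) (k : ℤ × ℤ) :
    Tendsto (fun m => S t (b m) k) (hyperfilter ℕ) (𝓝 (S t a k)) := by
  set M := √(M2 L ν g r + r ^ 2) with hM
  have hW : ∀ s : ℝ, ∃ w : St, ‖w‖ ≤ M ∧
      ∀ k, Tendsto (fun m => S |s| (b m) k) (hyperfilter ℕ) (𝓝 (w k)) := by
    intro s
    exact exlim (hyperfilter ℕ) (Real.sqrt_nonneg _)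
      (Eventually.of_forall fun m => Bt_bound hL hν hg hS (hb m) (abs_nonneg s))
  choose W hWM hWlim using hW
  have hU : ((hyperfilter ℕ : Ultrafilter ℕ) : Filter ℕ) ≤ atTop := Nat.hyperfilter_le_atTop
  have hW0 : W 0 = a := by
    apply lp.ext
    funext k
    have h2 := hWlim 0 k
    have e : ∀ m, S |0| (b m) k = b m k := fun m => by rw [abs_zero, hS.init _ (hb m).1]
    simp only [e] at h2
    exact tendsto_nhds_unique h2 ((hlim k).mono_left hU)
  have hweak : IsWeak L ν g W := by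
    refine key (U := ((hyperfilter ℕ : Ultrafilter ℕ) : Filter ℕ)) (M := M) hL
      (z := fun m t => S t (b m)) ?_ ?_ (fun t _ => hWM _) ?_ ?_
    · exact Eventually.of_forall fun m => hS.weak _ (hb m).1
    · exact Eventually.of_forall fun m t ht => Bt_bound hL hν hg hS (hb m) ht
    · intro T hT
      obtain ⟨C, hC0, hC⟩ := Bt_grad hL hν hg hS r hT
      refine ⟨C, hC0, Eventually.of_forall fun m => ?_⟩
      have := hC _ (hb m) 0 le_rfl
      simpa using this
    · intro t ht k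
      have h2 := hWlim t k
      rwa [abs_of_nonneg ht] at h2
  have h3 := hS.unique a ha W hweak hW0 t ht
  rw [← h3]
  have h2 := hWlim t k
  rwa [abs_of_nonneg ht] at h2

lemma attr_sub (hL : 0 < L) (hν : 0 < ν) (hg : 0 < g) (hS : IsSemigroup L ν g S)
    {x : St} (hx : x ∈ attractor L ν g) : ∃ r : ℝ, 0 ≤ r ∧ x ∈ omegaLim S (Btilde L ν g r) := by
  have hk := kk_pos hL
  obtain ⟨z, hz, hz0, M, hM⟩ := hx
  have st : ∀ t, IsState (z t) := by
    intro t
    have := (hz t).state 0 le_rfl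
    simpa using this
  have flow : ∀ t₀ t, 0 ≤ t → z (t₀ + t) = S t (z t₀) := fun t₀ t ht =>
    hS.unique (z t₀) (st t₀) (fun t => z (t₀ + t)) (hz t₀) (by simp) t ht
  have temp : ∀ t, t ≤ 0 → tSq (z t) = tSq x := by
    intro t ht
    have h1 := flow t (-t) (by linarith)
    rw [add_neg_cancel, hz0] at h1
    rw [h1, hS.temp _ (st t) _ (by linarith)]
  have hM0 : 0 ≤ M := (norm_nonneg _).trans (hM 0)
  set ρ := tSq x with hρ
  have hρ0 : 0 ≤ ρ := tSq_nonneg x
  set C₀ : ℝ := (M ^ 2 + g ^ 2 / (ν * kk L) * ρ * 1) / ν with hC₀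
  have hC₀0 : 0 ≤ C₀ := by positivity
  have hσ : ∀ n : ℕ, ∃ σ : ℝ, σ ≤ -n ∧ gradSq L (z σ) ≤ ENNReal.ofReal (C₀ + 1) := by
    intro n
    set a : ℝ := -(n : ℝ) - 1 with ha
    have ha0 : a ≤ 0 := by have : (0 : ℝ) ≤ n := Nat.cast_nonneg n; linarith
    have hE : uSq (S 0 (z a)) ≤ M ^ 2 := by
      rw [hS.init _ (st a)]
      have h1 := norm_sq_St (z a)
      have h2 : ‖z a‖ ^ 2 ≤ M ^ 2 := pow_le_pow_left₀ (norm_nonneg _) (hM a) 2
      linarith [tSq_nonneg (z a)]
    have h1 := grad_bound hL hν hg hS (st a) (a := 0) (T := 1) le_rfl zero_le_one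
      (by positivity) hE (temp a ha0).le
    rw [← hC₀] at h1
    by_contra hcon
    push Not at hcon
    have h2 : ∫⁻ _ in Icc (0 : ℝ) 1, ENNReal.ofReal (C₀ + 1) ≤
        ∫⁻ t in Icc 0 1, gradSq L (S (0 + t) (z a)) := by
      refine setLIntegral_mono' measurableSet_Icc fun t ht => ?_
      have h3 := hcon (a + t) (by linarith [ht.2])
      rw [flow a t ht.1] at h3
      rw [zero_add]
      exact h3.le
    rw [setLIntegral_const, Real.volume_Icc, sub_zero, ENNReal.ofReal_one, mul_one] at h2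
    have h4 := h2.trans h1
    rw [ENNReal.ofReal_le_ofReal_iff hC₀0] at h4
    linarith
  obtain ⟨r, hr0, hr1, hr2⟩ := exists_radius hL hν hg ρ (C₀ + 1) hρ0 (by positivity)
  refine ⟨r, hr0, ?_⟩
  refine mem_iInter₂.2 fun τ hτ => ?_
  obtain ⟨n, hn⟩ := exists_nat_gt τ
  obtain ⟨σ, hσn, hσg⟩ := hσ n
  have hσ0 : σ ≤ 0 := by have : (0 : ℝ) ≤ n := Nat.cast_nonneg n; linarith
  have hT : tSq (z σ) < r ^ 2 := by rw [temp σ hσ0]; exact hr1
  choose b hb1 hb2 hb3 hb4 using fun m => pert (L := L) (st σ) hT m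
  have hbB : ∀ m, b m ∈ Btilde L ν g r := by
    intro m
    refine ⟨hb1 m, hb2 m, ?_⟩
    rw [hb3]
    exact hσg.trans (ENNReal.ofReal_le_ofReal hr2)
  have hblim : ∀ k, Tendsto (fun m => b m k) atTop (𝓝 (z σ k)) := by
    intro k
    refine tendsto_const_nhds.congr' ?_
    filter_upwards [eventually_ge_atTop k.1.natAbs] with m hm
    refine (hb4 m k ?_).symm
    have : |k.1| = (k.1.natAbs : ℤ) := (Int.natCast_natAbs k.1).symm
    rw [this]
    exact_mod_cast Nat.lt_succ_of_le hm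
  have hflow : S (-σ) (z σ) = x := by
    rw [← flow σ (-σ) (by linarith), add_neg_cancel, hz0]
  refine mem_wkClosure (U := ((hyperfilter ℕ : Ultrafilter ℕ) : Filter ℕ))
    (y := fun m => S (-σ) (b m)) (M := √(M2 L ν g r + r ^ 2))
    (Eventually.of_forall fun m => Bt_bound hL hν hg hS (hbB m) (by linarith))
    (Eventually.of_forall fun m => ⟨-σ, by linarith, b m, hbB m, rfl⟩) fun k => ?_
  have h5 := weak_cont hL hν hg hS (st σ) hbB hblim (by linarith : 0 ≤ -σ) k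
  rw [hflow] at h5
  exact h5

end Pool.Agent.R216.BOU
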