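import Pool.Agent.R216.BOU.Defs

/-! Basic estimates. -/

namespace Pool.Agent.R216.BOU

open MeasureTheory Set Filter Topology
open scoped ENNReal ComplexConjugate

lemma nsq_nonneg (k : ℤ × ℤ) : 0 ≤ nsq k := by unfold nsq; positivity

lemma vsq_nonneg (a : C3) : 0 ≤ vsq a := by unfold vsq; positivity

lemma norm_sq_C3 (a : C3) : ‖a‖ ^ 2 = vsq a + ‖a 2‖ ^ 2 := by
  rw [EuclideanSpace.norm_sq_eq, Fin.sum_univ_three]
  rfl

lemma vsq_le (a : C3) : vsq a ≤ ‖a‖ ^ 2 := by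
  rw [norm_sq_C3]; nlinarith [sq_nonneg ‖a 2‖]

lemma t_le (a : C3) : ‖a 2‖ ^ 2 ≤ ‖a‖ ^ 2 := by
  rw [norm_sq_C3]; nlinarith [vsq_nonneg a]

lemma hasSum_sq (z : St) : HasSum (fun k => ‖z k‖ ^ 2) (‖z‖ ^ 2) := by
  have h := lp.hasSum_norm (p := 2) (by norm_num) z
  simpa using h

lemma summable_sq (z : St) : Summable (fun k => ‖z k‖ ^ 2) := (hasSum_sq z).summable

lemma summable_vsq (z : St) : Summable (fun k => vsq (z k)) :=
  Summable.of_nonneg_of_le (fun k => vsq_nonneg _) (fun k => vsq_le _) (summable_sq z)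

lemma summable_tsq (z : St) : Summable (fun k => ‖z k 2‖ ^ 2) :=
  Summable.of_nonneg_of_le (fun k => by positivity) (fun k => t_le _) (summable_sq z)

lemma norm_sq_St (z : St) : ‖z‖ ^ 2 = uSq z + tSq z := by
  rw [← (hasSum_sq z).tsum_eq, uSq, tSq, ← (summable_vsq z).tsum_add (summable_tsq z)]
  exact tsum_congr fun k => norm_sq_C3 _

lemma uSq_nonneg (z : St) : 0 ≤ uSq z := tsum_nonneg fun k => vsq_nonneg _

lemma tSq_nonneg (z : St) : 0 ≤ tSq z := tsum_nonneg fun k => by positivity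

lemma norm_coef_le (z : St) (k : ℤ × ℤ) : ‖z k‖ ≤ ‖z‖ :=
  lp.norm_apply_le_norm (by norm_num) z k

lemma norm_dot_sq_le (k : ℤ × ℤ) (a : C3) : ‖dot k a‖ ^ 2 ≤ nsq k * vsq a := by
  have h1 : ‖dot k a‖ ≤ |(k.1 : ℝ)| * ‖a 0‖ + |(k.2 : ℝ)| * ‖a 1‖ := by
    unfold dot
    refine (norm_add_le _ _).trans ?_
    rw [norm_mul, norm_mul]
    rw [Complex.norm_intCast, Complex.norm_intCast]
  have h2 : ‖dot k a‖ ^ 2 ≤ (|(k.1 : ℝ)| * ‖a 0‖ + |(k.2 : ℝ)| * ‖a 1‖) ^ 2 :=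
    pow_le_pow_left₀ (norm_nonneg _) h1 2
  refine h2.trans ?_
  unfold nsq vsq
  have e1 := sq_abs (k.1 : ℝ)
  have e2 := sq_abs (k.2 : ℝ)
  rw [← e1, ← e2]
  nlinarith [sq_nonneg (|(k.1 : ℝ)| * ‖a 1‖ - |(k.2 : ℝ)| * ‖a 0‖)]

lemma norm_dot_le (k : ℤ × ℤ) (a : C3) : ‖dot k a‖ ≤ √(nsq k) * ‖a‖ := by
  have h := norm_dot_sq_le k a
  have h2 : ‖dot k a‖ ^ 2 ≤ (√(nsq k) * ‖a‖) ^ 2 := by
    rw [mul_pow, Real.sq_sqrt (nsq_nonneg k)]
    exact h.trans (mul_le_mul_of_nonneg_left (vsq_le a) (nsq_nonneg k))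
  exact (le_abs_self _).trans (abs_le_of_sq_le_sq h2 (by positivity))

/-- summand of the convolution -/
noncomputable def cterm (z : St) (k l : ℤ × ℤ) : C3 := dot k (z l) • z (k - l)

lemma norm_cterm_le (z : St) (k l : ℤ × ℤ) :
    ‖cterm z k l‖ ≤ √(nsq k) / 2 * (‖z l‖ ^ 2 + ‖z (k - l)‖ ^ 2) := by
  unfold cterm
  rw [norm_smul]
  have h := norm_dot_le k (z l)
  have h0 := Real.sqrt_nonneg (nsq k)
  calc ‖dot k (z l)‖ * ‖z (k - l)‖ ≤ √(nsq k) * ‖z l‖ * ‖z (k - l)‖ := by gcongr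
    _ ≤ √(nsq k) / 2 * (‖z l‖ ^ 2 + ‖z (k - l)‖ ^ 2) := by
      nlinarith [mul_nonneg h0 (sq_nonneg (‖z l‖ - ‖z (k - l)‖))]

lemma hasSum_sq_sub (z : St) (k : ℤ × ℤ) :
    HasSum (fun l => ‖z (k - l)‖ ^ 2) (‖z‖ ^ 2) :=
  (Equiv.hasSum_iff (Equiv.subLeft k) (f := fun l => ‖z l‖ ^ 2)).2 (hasSum_sq z)

lemma hasSum_cbound (z : St) (k : ℤ × ℤ) :
    HasSum (fun l => √(nsq k) / 2 * (‖z l‖ ^ 2 + ‖z (k - l)‖ ^ 2))
      (√(nsq k) * ‖z‖ ^ 2) := by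
  have := ((hasSum_sq z).add (hasSum_sq_sub z k)).mul_left (√(nsq k) / 2)
  have e : √(nsq k) * ‖z‖ ^ 2 = √(nsq k) / 2 * (‖z‖ ^ 2 + ‖z‖ ^ 2) := by ring
  rw [e]
  exact this

lemma summable_cterm (z : St) (k : ℤ × ℤ) : Summable (cterm z k) :=
  Summable.of_norm_bounded (hasSum_cbound z k).summable (norm_cterm_le z k)

lemma norm_conv_le (z : St) (k : ℤ × ℤ) : ‖conv z k‖ ≤ √(nsq k) * ‖z‖ ^ 2 :=
  tsum_of_norm_bounded (hasSum_cbound z k) (norm_cterm_le z k)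

/-- truncated convolution -/
noncomputable def convF (F : Finset (ℤ × ℤ)) (z : St) (k : ℤ × ℤ) : C3 :=
  ∑ l ∈ F, cterm z k l

lemma norm_convF_le (F : Finset (ℤ × ℤ)) (z : St) (k : ℤ × ℤ) :
    ‖convF F z k‖ ≤ √(nsq k) * ‖z‖ ^ 2 := by
  unfold convF
  refine (norm_sum_le _ _).trans ?_
  refine (Finset.sum_le_sum fun l _ => norm_cterm_le z k l).trans ?_
  exact sum_le_hasSum F (fun l _ => by positivity) (hasSum_cbound z k)

/-- weight of the frequency `l` -/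
noncomputable def wt (L : ℝ) (l : ℤ × ℤ) : ℝ := (2 * Real.pi / L) ^ 2 * nsq l

lemma wt_nonneg (L : ℝ) (l : ℤ × ℤ) : 0 ≤ wt L l := mul_nonneg (sq_nonneg _) (nsq_nonneg _)

lemma gradSq_eq (L : ℝ) (z : St) : gradSq L z = ∑' l, ENNReal.ofReal (wt L l * vsq (z l)) := rfl

lemma cterm_tail {L R : ℝ} (hR : 0 < R) (z : St) (k l : ℤ × ℤ) (hl : R ^ 2 ≤ wt L l) :
    ‖cterm z k l‖ ≤ √(nsq k) / (2 * R) * (wt L l * vsq (z l) + ‖z (k - l)‖ ^ 2) := by
  unfold cterm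
  rw [norm_smul]
  have h := norm_dot_sq_le k (z l)
  have h0 := Real.sqrt_nonneg (nsq k)
  have h1 : ‖dot k (z l)‖ ≤ √(nsq k) * √(vsq (z l)) := by
    rw [← Real.sqrt_mul (nsq_nonneg k)]
    exact Real.le_sqrt_of_sq_le h
  have h2 : √(vsq (z l)) * ‖z (k - l)‖ ≤ 1 / (2 * R) * (wt L l * vsq (z l) + ‖z (k - l)‖ ^ 2) := by
    rw [div_mul_eq_mul_div, one_mul, le_div_iff₀ (by positivity)]
    have h3 : (√(vsq (z l))) ^ 2 = vsq (z l) := Real.sq_sqrt (vsq_nonneg _)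
    have h4 : R ^ 2 * vsq (z l) ≤ wt L l * vsq (z l) :=
      mul_le_mul_of_nonneg_right hl (vsq_nonneg _)
    nlinarith [sq_nonneg (R * √(vsq (z l)) - ‖z (k - l)‖)]
  calc ‖dot k (z l)‖ * ‖z (k - l)‖ ≤ √(nsq k) * √(vsq (z l)) * ‖z (k - l)‖ := by gcongr
    _ = √(nsq k) * (√(vsq (z l)) * ‖z (k - l)‖) := by ring
    _ ≤ √(nsq k) * (1 / (2 * R) * (wt L l * vsq (z l) + ‖z (k - l)‖ ^ 2)) := by gcongr
    _ = √(nsq k) / (2 * R) * (wt L l * vsq (z l) + ‖z (k - l)‖ ^ 2) := by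
      field_simp

lemma conv_tail {L R : ℝ} (hR : 0 < R) (F : Finset (ℤ × ℤ))
    (hF : ∀ l, l ∉ F → R ^ 2 ≤ wt L l) (z : St) (k : ℤ × ℤ) :
    ‖conv z k - convF F z k‖ₑ ≤
      ENNReal.ofReal (√(nsq k) / (2 * R)) * (gradSq L z + ENNReal.ofReal (‖z‖ ^ 2)) := by
  have e1 : conv z k - convF F z k = ∑' l : {l // l ∉ F}, cterm z k l := by
    rw [sub_eq_iff_eq_add, conv, convF, add_comm]
    exact ((summable_cterm z k).sum_add_tsum_subtype_compl F).symm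
  rw [e1]
  refine enorm_tsum_le_tsum_enorm.trans ?_
  have e2 : ∀ l : {l // l ∉ F}, ‖cterm z k l‖ₑ ≤ ENNReal.ofReal (√(nsq k) / (2 * R)) *
      (ENNReal.ofReal (wt L l * vsq (z l)) + ENNReal.ofReal (‖z (k - l)‖ ^ 2)) := by
    intro l
    have h := cterm_tail hR z k l (hF l l.2)
    rw [← ofReal_norm, ← ENNReal.ofReal_add (mul_nonneg (wt_nonneg _ _) (vsq_nonneg _))
      (by positivity), ← ENNReal.ofReal_mul (by positivity)]
    exact ENNReal.ofReal_le_ofReal h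
  refine (ENNReal.tsum_le_tsum e2).trans ?_
  rw [ENNReal.tsum_mul_left]
  gcongr
  rw [ENNReal.tsum_add]
  gcongr
  · rw [gradSq_eq]
    exact ENNReal.tsum_comp_le_tsum_of_injective Subtype.val_injective
      (fun l => ENNReal.ofReal (wt L l * vsq (z l)))
  · refine (ENNReal.tsum_comp_le_tsum_of_injective Subtype.val_injective
      (fun l => ENNReal.ofReal (‖z (k - l)‖ ^ 2))).trans ?_
    rw [← ENNReal.ofReal_tsum_of_nonneg (fun l => by positivity) (hasSum_sq_sub z k).summable,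
      (hasSum_sq_sub z k).tsum_eq]

/-- the low frequencies form a finite set -/
lemma exists_low (L R : ℝ) (hL : 0 < L) :
    ∃ F : Finset (ℤ × ℤ), ∀ l, l ∉ F → R ^ 2 ≤ wt L l := by
  have hκ : 0 < 2 * Real.pi / L := by positivity
  obtain ⟨N, hN⟩ := exists_nat_ge (|R| / (2 * Real.pi / L))
  refine ⟨Finset.Icc (-(N : ℤ)) N ×ˢ Finset.Icc (-(N : ℤ)) N, fun l hl => ?_⟩
  have hR : |R| ≤ (2 * Real.pi / L) * N := by
    rw [div_le_iff₀ hκ] at hN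
    linarith
  have hR2 : R ^ 2 ≤ (2 * Real.pi / L) ^ 2 * (N : ℝ) ^ 2 := by
    rw [← sq_abs R, ← mul_pow]
    exact pow_le_pow_left₀ (abs_nonneg _) hR 2
  have hNl : (N : ℝ) ^ 2 ≤ nsq l := by
    have h1 : (N : ℤ) ≤ |l.1| ∨ (N : ℤ) ≤ |l.2| := by
      by_contra hcon
      push Not at hcon
      apply hl
      rw [Finset.mem_product, Finset.mem_Icc, Finset.mem_Icc]
      obtain ⟨h1, h2⟩ := hcon
      rw [abs_lt] at h1 h2
      omega
    unfold nsq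
    rcases h1 with h1 | h1
    · have h2 : (N : ℝ) ≤ |(l.1 : ℝ)| := by exact_mod_cast h1
      have := pow_le_pow_left₀ (by positivity) h2 2
      rw [sq_abs] at this
      nlinarith [sq_nonneg (l.2 : ℝ)]
    · have h2 : (N : ℝ) ≤ |(l.2 : ℝ)| := by exact_mod_cast h1
      have := pow_le_pow_left₀ (by positivity) h2 2
      rw [sq_abs] at this
      nlinarith [sq_nonneg (l.1 : ℝ)]
  unfold wt
  exact hR2.trans (mul_le_mul_of_nonneg_left hNl (sq_nonneg _))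

/-- `κ₀²` -/
noncomputable def kk (L : ℝ) : ℝ := (2 * Real.pi / L) ^ 2

lemma kk_pos {L : ℝ} (hL : 0 < L) : 0 < kk L := by unfold kk; positivity

/-- Poincaré inequality -/
lemma poincare {L : ℝ} (z : St) (hz : IsState z) :
    ENNReal.ofReal ((2 * Real.pi / L) ^ 2 * uSq z) ≤ gradSq L z := by
  rw [uSq, ← tsum_mul_left, ENNReal.ofReal_tsum_of_nonneg
    (fun k => mul_nonneg (sq_nonneg _) (vsq_nonneg _)) ((summable_vsq z).mul_left _)]
  refine ENNReal.tsum_le_tsum fun k => ENNReal.ofReal_le_ofReal ?_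
  by_cases hk : k = 0
  · subst hk
    have : vsq (z 0) = 0 := by simp [vsq, hz.1.1, hz.1.2]
    rw [this]; simp
  · have h1 : 1 ≤ nsq k := by
      have : k.1 ≠ 0 ∨ k.2 ≠ 0 := by
        by_contra hcon
        push Not at hcon
        exact hk (Prod.ext hcon.1 hcon.2)
      have h2 : 1 ≤ k.1 ^ 2 + k.2 ^ 2 := by
        rcases this with h | h
        · have : 0 < k.1 ^ 2 := by positivity
          nlinarith [sq_nonneg k.2]
        · have : 0 < k.2 ^ 2 := by positivity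
          nlinarith [sq_nonneg k.1]
      unfold nsq
      exact_mod_cast h2
    have h2 : (2 * Real.pi / L) ^ 2 ≤ (2 * Real.pi / L) ^ 2 * nsq k := by
      nlinarith [sq_nonneg (2 * Real.pi / L)]
    exact mul_le_mul_of_nonneg_right h2 (vsq_nonneg _)

end Pool.Agent.R216.BOU
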