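import Pool.Agent.R216.BOU.Basic

/-! The right-hand side: linearity, measurability, integrability, time shifts. -/

namespace Pool.Agent.R216.BOU

open MeasureTheory Set Filter Topology
open scoped ENNReal ComplexConjugate

/-- the right-hand side as a linear map -/
noncomputable def RkL (L ν g : ℝ) (k : ℤ × ℤ) : (C3 × C3) →ₗ[ℂ] C3 where
  toFun p := Rk L ν g k p.1 p.2
  map_add' := by
    intro p q
    unfold Rk
    split_ifs with h
    · simp
    · ext j
      fin_cases j <;> simp <;> ring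
  map_smul' := by
    intro c p
    unfold Rk
    split_ifs with h
    · simp
    · ext j
      fin_cases j <;> simp <;> ring

lemma Rk_continuous (L ν g : ℝ) (k : ℤ × ℤ) :
    Continuous fun p : C3 × C3 => Rk L ν g k p.1 p.2 :=
  (LinearMap.toContinuousLinearMap (RkL L ν g k)).continuous

lemma Rk_bound (L ν g : ℝ) (k : ℤ × ℤ) :
    ∃ C : ℝ, 0 ≤ C ∧ ∀ a v, ‖Rk L ν g k a v‖ ≤ C * (‖a‖ + ‖v‖) := by
  refine ⟨‖LinearMap.toContinuousLinearMap (RkL L ν g k)‖, norm_nonneg _, fun a v => ?_⟩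
  have h := (LinearMap.toContinuousLinearMap (RkL L ν g k)).le_opNorm (a, v)
  refine h.trans ?_
  gcongr
  rw [Prod.norm_def]
  exact max_le (by simp) (by simp)

lemma Rk_sub (L ν g : ℝ) (k : ℤ × ℤ) (a v v' : C3) :
    Rk L ν g k a v - Rk L ν g k a v' = Rk L ν g k 0 (v - v') := by
  have h := map_sub (RkL L ν g k) (a, v) (a, v')
  have e : ((a, v) : C3 × C3) - (a, v') = (0, v - v') := by simp
  rw [e] at h
  exact h.symm

lemma continuous_coord (j : Fin 3) : Continuous fun a : C3 => a j := by fun_prop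

lemma continuous_dot (k : ℤ × ℤ) : Continuous (dot k) := by
  unfold dot
  exact (continuous_const.mul (continuous_coord 0)).add
    (continuous_const.mul (continuous_coord 1))

lemma continuous_vsq : Continuous vsq := by
  unfold vsq
  exact ((continuous_coord 0).norm.pow 2).add ((continuous_coord 1).norm.pow 2)

/-- truncated convolution as a function of the family of coefficients -/
noncomputable def convG (F : Finset (ℤ × ℤ)) (k : ℤ × ℤ) (y : ℤ × ℤ → C3) : C3 :=
  ∑ l ∈ F, dot k (y l) • y (k - l)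

lemma continuous_convG (F : Finset (ℤ × ℤ)) (k : ℤ × ℤ) : Continuous (convG F k) := by
  unfold convG
  exact continuous_finsetSum F fun l _ =>
    ((continuous_dot k).comp (continuous_apply l)).smul (continuous_apply (k - l))

lemma convG_eq (F : Finset (ℤ × ℤ)) (k : ℤ × ℤ) (z : St) : convG F k z = convF F z k := rfl

lemma aesm_conv {z : ℝ → St} {S : Set ℝ} (hS : MeasurableSet S)
    (hc : ∀ k, ContinuousOn (fun t => z t k) S) (k : ℤ × ℤ) :
    AEStronglyMeasurable (fun t => conv (z t) k) (volume.restrict S) := by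
  refine aestronglyMeasurable_of_tendsto_ae (atTop : Filter (Finset (ℤ × ℤ)))
    (f := fun F t => convF F (z t) k) (fun F => ?_)
    (Eventually.of_forall fun t => (summable_cterm (z t) k).hasSum)
  have h : ContinuousOn (fun t => convG F k (z t)) S :=
    (continuous_convG F k).comp_continuousOn (continuousOn_pi.2 hc)
  exact h.aestronglyMeasurable hS

lemma Rk_bound' (L ν g : ℝ) (k : ℤ × ℤ) (M : ℝ) :
    ∃ Λ : ℝ, 0 ≤ Λ ∧ ∀ z : St, ‖z‖ ≤ M → ‖rhs L ν g z k‖ ≤ Λ := by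
  obtain ⟨C, hC0, hC⟩ := Rk_bound L ν g k
  refine ⟨C * (|M| + √(nsq k) * M ^ 2), by positivity, fun z hz => (hC _ _).trans ?_⟩
  have h2 := norm_coef_le z k
  have h3 := norm_conv_le z k
  have h0 := norm_nonneg z
  have h4 : ‖z‖ ^ 2 ≤ M ^ 2 := pow_le_pow_left₀ h0 hz 2
  have h5 : √(nsq k) * ‖z‖ ^ 2 ≤ √(nsq k) * M ^ 2 :=
    mul_le_mul_of_nonneg_left h4 (Real.sqrt_nonneg _)
  have h6 := le_abs_self M
  exact mul_le_mul_of_nonneg_left (by linarith) hC0

lemma aesm_comp {Φ : C3 × C3 → C3} (hΦ : Continuous Φ) {a v : ℝ → C3} {μ : Measure ℝ}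
    (ha : AEStronglyMeasurable a μ) (hv : AEStronglyMeasurable v μ) :
    AEStronglyMeasurable (fun t => Φ (a t, v t)) μ :=
  hΦ.comp_aestronglyMeasurable (ha.prodMk hv)

attribute [local irreducible] Rk

lemma aesm_rhs {L ν g : ℝ} {z : ℝ → St} {S : Set ℝ} (hS : MeasurableSet S)
    (hc : ∀ k, ContinuousOn (fun t => z t k) S) (k : ℤ × ℤ) :
    AEStronglyMeasurable (fun t => rhs L ν g (z t) k) (volume.restrict S) := by
  have m1 : AEStronglyMeasurable (fun t => z t k) (volume.restrict S) :=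
    (hc k).aestronglyMeasurable hS
  have m2 : AEStronglyMeasurable (fun t => conv (z t) k) (volume.restrict S) :=
    aesm_conv hS hc k
  have m3 := aesm_comp (Rk_continuous L ν g k) m1 m2
  exact m3

lemma integrableOn_aux {f : ℝ → C3} {a b Λ : ℝ}
    (hm : AEStronglyMeasurable f (volume.restrict (Icc a b))) (h : ∀ t ∈ Icc a b, ‖f t‖ ≤ Λ) :
    IntegrableOn f (Icc a b) :=
  Integrable.of_bound hm Λ
    ((ae_restrict_iff' measurableSet_Icc).2 (Eventually.of_forall h))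

lemma rhs_integrableOn {L ν g : ℝ} {z : ℝ → St} {a b M : ℝ}
    (hc : ∀ k, ContinuousOn (fun t => z t k) (Icc a b))
    (hM : ∀ t ∈ Icc a b, ‖z t‖ ≤ M) (k : ℤ × ℤ) :
    IntegrableOn (fun t => rhs L ν g (z t) k) (Icc a b) := by
  obtain ⟨Λ, _, hΛ⟩ := Rk_bound' L ν g k M
  exact integrableOn_aux (aesm_rhs measurableSet_Icc hc k) fun t ht => hΛ _ (hM t ht)

lemma rhs_norm_le {L ν g : ℝ} (k : ℤ × ℤ) (M : ℝ) :
    ∃ Λ : ℝ, 0 ≤ Λ ∧ ∀ z : St, ‖z‖ ≤ M → ‖rhs L ν g z k‖ ≤ Λ := by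
  obtain ⟨C, hC0, hC⟩ := Rk_bound L ν g k
  refine ⟨C * (|M| + √(nsq k) * M ^ 2), by positivity, fun z hz => (hC _ _).trans ?_⟩
  have h2 := norm_coef_le z k
  have h3 := norm_conv_le z k
  have h0 := norm_nonneg z
  have h4 : ‖z‖ ^ 2 ≤ M ^ 2 := pow_le_pow_left₀ h0 hz 2
  have h5 : √(nsq k) * ‖z‖ ^ 2 ≤ √(nsq k) * M ^ 2 :=
    mul_le_mul_of_nonneg_left h4 (Real.sqrt_nonneg _)
  have h6 := le_abs_self M
  exact mul_le_mul_of_nonneg_left (by linarith) hC0

namespace IsWeak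

variable {L ν g : ℝ} {z : ℝ → St}

lemma intervalIntegrable (h : IsWeak L ν g z) {a b : ℝ} (ha : 0 ≤ a) (hb : 0 ≤ b)
    (k : ℤ × ℤ) : IntervalIntegrable (fun s => rhs L ν g (z s) k) volume a b := by
  obtain ⟨M, hM⟩ := h.bdd (max a b)
  have h1 : IntegrableOn (fun t => rhs L ν g (z t) k) (Icc 0 (max a b)) :=
    rhs_integrableOn (fun k => (h.cont k).mono Icc_subset_Ici_self) hM k
  have h2 : uIcc a b ⊆ Icc 0 (max a b) := by
    rw [uIcc]
    exact Icc_subset_Icc (le_min ha hb) le_rfl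
  exact (h1.mono_set h2).intervalIntegrable

lemma eqn' (h : IsWeak L ν g z) {a b : ℝ} (ha : 0 ≤ a) (hb : 0 ≤ b) (k : ℤ × ℤ) :
    z b k - z a k = ∫ s in a..b, rhs L ν g (z s) k := by
  rw [h.eqn b hb k, h.eqn a ha k, add_sub_add_left_eq_sub]
  exact intervalIntegral.integral_interval_sub_left (h.intervalIntegrable le_rfl hb k)
    (h.intervalIntegrable le_rfl ha k)

lemma lip (h : IsWeak L ν g z) {T M Λ : ℝ} (hM : ∀ t ∈ Icc 0 T, ‖z t‖ ≤ M) {k : ℤ × ℤ}
    (hΛ : ∀ z : St, ‖z‖ ≤ M → ‖rhs L ν g z k‖ ≤ Λ) :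
    ∀ s ∈ Icc 0 T, ∀ t ∈ Icc 0 T, ‖z t k - z s k‖ ≤ Λ * |t - s| := by
  intro s hs t ht
  rw [h.eqn' hs.1 ht.1]
  apply intervalIntegral.norm_integral_le_of_norm_le_const
  intro τ hτ
  apply hΛ
  apply hM
  have h1 := uIoc_subset_uIcc hτ
  have h2 : uIcc s t ⊆ Icc 0 T := by
    rw [uIcc]
    exact Icc_subset_Icc (le_min hs.1 ht.1) (max_le hs.2 ht.2)
  exact h2 h1

end IsWeak

lemma lshift (f : ℝ → ℝ≥0∞) (a T : ℝ) :
    ∫⁻ t in Icc 0 T, f (a + t) = ∫⁻ t in Icc a (a + T), f t := by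
  rw [← lintegral_indicator measurableSet_Icc, ← lintegral_indicator measurableSet_Icc,
    ← lintegral_add_left_eq_self (μ := volume) ((Icc a (a + T)).indicator f) a]
  congr 1
  ext t
  simp only [indicator_apply, mem_Icc]
  congr 1
  simp

lemma IsWeak.shift {L ν g : ℝ} {z : ℝ → St} (h : IsWeak L ν g z) {a : ℝ} (ha : 0 ≤ a) :
    IsWeak L ν g (fun t => z (a + t)) where
  state := fun t ht => h.state _ (by linarith)
  cont := fun k => (h.cont k).comp (by fun_prop) (fun t ht => by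
    rw [mem_Ici] at ht ⊢; linarith)
  bdd := fun T => by
    obtain ⟨M, hM⟩ := h.bdd (a + T)
    exact ⟨M, fun t ht => hM _ ⟨by linarith [ht.1], by linarith [ht.2]⟩⟩
  grad := fun T => by
    rw [lshift (fun t => gradSq L (z t))]
    exact (lintegral_mono_set (Icc_subset_Icc_left ha)).trans_lt (h.grad (a + T))
  eqn := fun t ht k => by
    have h1 := h.eqn' ha (by linarith : 0 ≤ a + t) k
    have h2 : (∫ s in (0 : ℝ)..t, rhs L ν g (z (a + s)) k) =
        ∫ s in a..(a + t), rhs L ν g (z s) k := by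
      have := intervalIntegral.integral_comp_add_left (a := (0 : ℝ)) (b := t)
        (fun s => rhs L ν g (z s) k) a
      rw [this, add_zero]
    rw [h2, ← h1]
    simp

end Pool.Agent.R216.BOU
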