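import Pool.Agent.R216.BOU.Energy
import Pool.Agent.R216.BOU.Rhs

/-! Uniform bounds for trajectories starting in a level set. -/

namespace Pool.Agent.R216.BOU

open MeasureTheory Set Filter Topology
open scoped ENNReal ComplexConjugate

variable {L ν g : ℝ} {S : ℝ → St → St}

lemma grad_bound (hL : 0 < L) (hν : 0 < ν) (hg : 0 < g) (hS : IsSemigroup L ν g S)
    {x : St} (hx : IsState x) {a T E₀ ρ : ℝ} (ha : 0 ≤ a) (hT : 0 ≤ T) (hE0 : 0 ≤ E₀)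
    (hE : uSq (S a x) ≤ E₀) (hρ : tSq x ≤ ρ) :
    ∫⁻ t in Icc 0 T, gradSq L (S (a + t) x) ≤
      ENNReal.ofReal ((E₀ + g ^ 2 / (ν * kk L) * ρ * T) / ν) := by
  have hk := kk_pos hL
  have hρ0 : 0 ≤ ρ := (tSq_nonneg x).trans hρ
  have h1 := energy_star hL hν hg hS hx ha (by linarith : a ≤ a + T)
  rw [lshift (fun t => gradSq L (S t x))]
  have h2 : ENNReal.ofReal ν * ∫⁻ τ in Icc a (a + T), gradSq L (S τ x) ≤
      ENNReal.ofReal (E₀ + g ^ 2 / (ν * kk L) * ρ * T) := by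
    refine (le_add_self.trans h1).trans ?_
    rw [ENNReal.ofReal_add hE0 (by positivity)]
    have e : a + T - a = T := by ring
    rw [e]
    gcongr
  rw [ENNReal.ofReal_div_of_pos hν]
  rw [ENNReal.le_div_iff_mul_le (Or.inl (by simpa using hν)) (Or.inl ENNReal.ofReal_ne_top),
    mul_comm]
  exact h2

lemma Bt_uSq (hL : 0 < L) {r : ℝ} {x : St} (hx : x ∈ Btilde L ν g r) :
    uSq x ≤ RR L ν g r ^ 2 / kk L := by
  have hk := kk_pos hL
  have h1 := (poincare (L := L) x hx.1).trans hx.2.2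
  rw [ENNReal.ofReal_le_ofReal_iff (by positivity)] at h1
  rw [le_div_iff₀ hk, mul_comm]
  exact h1

/-- bound of the kinetic energy on trajectories from the level set -/
noncomputable def M2 (L ν g r : ℝ) : ℝ :=
  max (RR L ν g r ^ 2 / kk L) (g ^ 2 / (ν * kk L) * r ^ 2 / (ν * kk L))

lemma Bt_energy (hL : 0 < L) (hν : 0 < ν) (hg : 0 < g) (hS : IsSemigroup L ν g S)
    {r : ℝ} {x : St} (hx : x ∈ Btilde L ν g r) {t : ℝ} (ht : 0 ≤ t) :
    uSq (S t x) ≤ M2 L ν g r := by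
  refine (uSq_bound hL hν hg hS hx.1 ht).trans ?_
  rw [hx.2.1]
  exact max_le_max (Bt_uSq hL hx) le_rfl

lemma M2_nonneg (hL : 0 < L) (r : ℝ) : 0 ≤ M2 L ν g r := by
  have hk := kk_pos hL
  exact le_trans (by positivity) (le_max_left _ _)

lemma Bt_bound (hL : 0 < L) (hν : 0 < ν) (hg : 0 < g) (hS : IsSemigroup L ν g S)
    {r : ℝ} {x : St} (hx : x ∈ Btilde L ν g r) {t : ℝ} (ht : 0 ≤ t) :
    ‖S t x‖ ≤ √(M2 L ν g r + r ^ 2) := by
  apply Real.le_sqrt_of_sq_le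
  rw [norm_sq_St, hS.temp x hx.1 t ht, hx.2.1]
  linarith [Bt_energy hL hν hg hS hx ht]

lemma Bt_grad (hL : 0 < L) (hν : 0 < ν) (hg : 0 < g) (hS : IsSemigroup L ν g S)
    (r : ℝ) {T : ℝ} (hT : 0 ≤ T) : ∃ C : ℝ, 0 ≤ C ∧ ∀ x ∈ Btilde L ν g r, ∀ a : ℝ, 0 ≤ a →
      ∫⁻ t in Icc 0 T, gradSq L (S (a + t) x) ≤ ENNReal.ofReal C := by
  have hk := kk_pos hL
  have h0 := M2_nonneg (ν := ν) (g := g) hL r
  exact ⟨(M2 L ν g r + g ^ 2 / (ν * kk L) * r ^ 2 * T) / ν, by positivity, fun x hx a ha =>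
    grad_bound hL hν hg hS hx.1 ha hT h0 (Bt_energy hL hν hg hS hx ha) hx.2.1.le⟩

end Pool.Agent.R216.BOU
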