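import Mathlib

/-! The semi-dissipative two-dimensional Boussinesq system in Fourier variables. -/

namespace Pool.Agent.R216.BOU

open MeasureTheory Set Filter Topology
open scoped ENNReal ComplexConjugate

/-- coefficient vectors `(û₁(k), û₂(k), θ̂(k))` -/
noncomputable abbrev C3 : Type := EuclideanSpace ℂ (Fin 3)

/-- square summable families of Fourier coefficients -/
noncomputable abbrev St : Type := lp (fun _ : ℤ × ℤ => C3) 2

/-- `|k|^2` -/
def nsq (k : ℤ × ℤ) : ℝ := (k.1 : ℝ) ^ 2 + (k.2 : ℝ) ^ 2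

/-- `k · û` -/
def dot (k : ℤ × ℤ) (a : C3) : ℂ := (k.1 : ℂ) * a 0 + (k.2 : ℂ) * a 1

/-- the convolution `∑_l (k · û(l)) (û₁, û₂, θ̂)(k - l)` -/
noncomputable def conv (z : St) (k : ℤ × ℤ) : C3 := ∑' l, dot k (z l) • z (k - l)

/-- modulus squared of the velocity part of a coefficient -/
noncomputable def vsq (a : C3) : ℝ := ‖a 0‖ ^ 2 + ‖a 1‖ ^ 2

/-- `‖u‖²` in `L²(Ω)` -/
noncomputable def uSq (z : St) : ℝ := ∑' k, vsq (z k)

/-- `‖θ‖²` in `L²(Ω)` -/
noncomputable def tSq (z : St) : ℝ := ∑' k, ‖z k 2‖ ^ 2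

/-- `‖∇u‖²` in `L²(Ω)`, possibly infinite; `κ = 2π/L` -/
noncomputable def gradSq (L : ℝ) (z : St) : ℝ≥0∞ :=
  ∑' k, ENNReal.ofReal ((2 * Real.pi / L) ^ 2 * nsq k * vsq (z k))

/-- the phase space `H × L²`: real fields, velocity divergence free with mean zero -/
def IsState (z : St) : Prop :=
  (z 0 0 = 0 ∧ z 0 1 = 0) ∧ (∀ k, dot k (z k) = 0) ∧ ∀ k j, z (-k) j = conj (z k j)

/-- right-hand side of the system for the coefficient `k`, as a function of the coefficient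
`a = (û₁, û₂, θ̂)(k)` and of the convolution `v`; the pressure is eliminated by the projection
onto the orthogonal complement of `k`, and the mean of the velocity is projected to `0` -/
noncomputable def Rk (L ν g : ℝ) (k : ℤ × ℤ) (a v : C3) : C3 :=
  if k = 0 then 0 else
    let κ : ℂ := 2 * Real.pi / L
    let G0 : ℂ := -Complex.I * (κ / L) * v 0
    let G1 : ℂ := -Complex.I * (κ / L) * v 1 + g * a 2
    let q : ℂ := (k.1 * G0 + k.2 * G1) / (nsq k : ℂ)
    WithLp.toLp 2 ![-ν * κ ^ 2 * (nsq k : ℂ) * a 0 + (G0 - k.1 * q),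
      -ν * κ ^ 2 * (nsq k : ℂ) * a 1 + (G1 - k.2 * q),
      -Complex.I * (κ / L) * v 2]

/-- right-hand side of the system -/
noncomputable def rhs (L ν g : ℝ) (z : St) (k : ℤ × ℤ) : C3 := Rk L ν g k (z k) (conv z k)

/-- finite energy weak solutions on `[0, ∞)` -/
structure IsWeak (L ν g : ℝ) (z : ℝ → St) : Prop where
  state : ∀ t, 0 ≤ t → IsState (z t)
  cont : ∀ k, ContinuousOn (fun t => z t k) (Ici 0)
  bdd : ∀ T, ∃ M : ℝ, ∀ t ∈ Icc 0 T, ‖z t‖ ≤ M
  grad : ∀ T, ∫⁻ t in Icc 0 T, gradSq L (z t) < ⊤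
  eqn : ∀ t, 0 ≤ t → ∀ k, z t k = z 0 k + ∫ s in (0 : ℝ)..t, rhs L ν g (z s) k

/-- `S` is the solution semigroup of the well posed system: for every state `x` the function
`t ↦ S t x` is a weak solution starting at `x`, the norm of the temperature is constant along it,
and it is the only weak solution starting at `x`. -/
structure IsSemigroup (L ν g : ℝ) (S : ℝ → St → St) : Prop where
  weak : ∀ x, IsState x → IsWeak L ν g (fun t => S t x)
  init : ∀ x, IsState x → S 0 x = x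
  temp : ∀ x, IsState x → ∀ t, 0 ≤ t → tSq (S t x) = tSq x
  unique : ∀ x, IsState x → ∀ z : ℝ → St, IsWeak L ν g z → z 0 = x → ∀ t, 0 ≤ t → z t = S t x

/-- closure in the weak topology of the Hilbert space -/
def wkClosure (X : Set St) : Set St :=
  {y | ∀ (F : Finset St) (ε : ℝ), 0 < ε → ∃ x ∈ X, ∀ h ∈ F, ‖inner ℂ h (x - y)‖ < ε}

/-- weak `ω`-limit set -/
def omegaLim (S : ℝ → St → St) (X : Set St) : Set St :=
  ⋂ τ ∈ Ici (0 : ℝ), wkClosure {y | ∃ t, τ < t ∧ ∃ x ∈ X, y = S t x}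

/-- the weak sigma-attractor: points on complete bounded trajectories -/
def attractor (L ν g : ℝ) : Set St :=
  {x | ∃ z : ℝ → St, (∀ t₀ : ℝ, IsWeak L ν g (fun t => z (t₀ + t))) ∧ z 0 = x ∧
    ∃ M : ℝ, ∀ t, ‖z t‖ ≤ M}

/-- `R(r) = 2 g r / (ν κ₀²)` -/
noncomputable def RR (L ν g r : ℝ) : ℝ := 2 * g * r / (ν * (2 * Real.pi / L) ^ 2)

/-- the level set `B̃_r` -/
def Btilde (L ν g r : ℝ) : Set St :=
  {x | IsState x ∧ tSq x = r ^ 2 ∧ gradSq L x ≤ ENNReal.ofReal (RR L ν g r ^ 2)}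

end Pool.Agent.R216.BOU
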