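import Pool.Agent.R216.BOU.Rhs

/-! The time derivative of the kinetic energy of a single mode. -/

namespace Pool.Agent.R216.BOU

open MeasureTheory Set Filter Topology
open scoped ENNReal ComplexConjugate

attribute [local irreducible] Rk

/-- real part of the pairing of the velocity parts -/
noncomputable def pr (a b : C3) : ℝ := (a 0 * conj (b 0) + a 1 * conj (b 1)).re

lemma vsq_eq_pr (a : C3) : vsq a = pr a a := by
  unfold vsq pr
  rw [Complex.mul_conj, Complex.mul_conj, Complex.add_re, Complex.ofReal_re, Complex.ofReal_re,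
    Complex.normSq_eq_norm_sq, Complex.normSq_eq_norm_sq]

lemma pr_comm (a b : C3) : pr a b = pr b a := by
  unfold pr
  simp only [Complex.add_re, Complex.mul_re, Complex.conj_re, Complex.conj_im]
  ring

lemma hasDerivAt_coord {f : ℝ → C3} {f' : C3} {t : ℝ} (h : HasDerivAt f f' t) (j : Fin 3) :
    HasDerivAt (fun s => f s j) (f' j) t := by
  have h1 := (((EuclideanSpace.proj j : EuclideanSpace ℂ (Fin 3) →L[ℂ] ℂ).restrictScalars
    ℝ).hasFDerivAt (x := f t)).comp_hasDerivAt t h
  exact h1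

lemma hasDerivAt_vsq {f : ℝ → C3} {f' : C3} {t : ℝ} (h : HasDerivAt f f' t) :
    HasDerivAt (fun s => vsq (f s)) (2 * pr f' (f t)) t := by
  have h0 := hasDerivAt_coord h 0
  have h1 := hasDerivAt_coord h 1
  have e : (fun s => vsq (f s)) =
      fun s => (f s 0 * star (f s 0) + f s 1 * star (f s 1)).re := by
    funext s
    rw [vsq_eq_pr]; rfl
  rw [e]
  have c0 : HasDerivAt (fun s => star (f s 0)) (star (f' 0)) t := h0.star
  have c1 : HasDerivAt (fun s => star (f s 1)) (star (f' 1)) t := h1.star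
  have h2 := (h0.mul c0).add (h1.mul c1)
  have h3 := (Complex.reCLM.hasFDerivAt).comp_hasDerivAt t h2
  refine HasDerivAt.congr_deriv h3 ?_
  rw [pr]
  simp only [Complex.reCLM_apply, Complex.add_re, Complex.mul_re, Complex.star_def,
    Complex.conj_re, Complex.conj_im]
  ring

lemma IsWeak.vsq_sub {L ν g : ℝ} {z : ℝ → St} (h : IsWeak L ν g z) {a b : ℝ} (ha : 0 ≤ a)
    (hab : a ≤ b) (k : ℤ × ℤ) :
    vsq (z b k) - vsq (z a k) = ∫ s in a..b, 2 * pr (rhs L ν g (z s) k) (z s k) := by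
  obtain ⟨M, hM⟩ := h.bdd b
  obtain ⟨Λ, hΛ0, hΛ⟩ := rhs_norm_le (L := L) (ν := ν) (g := g) k M
  have hlip := h.lip hM hΛ
  have hMn : ∀ s ∈ Icc 0 b, ‖z s k‖ ≤ |M| := fun s hs =>
    ((norm_coef_le _ k).trans (hM s hs)).trans (le_abs_self M)
  -- Lipschitz continuity of the modulus
  have hL2 : LipschitzOnWith (Real.toNNReal (4 * |M| * Λ)) (fun s => vsq (z s k)) (uIcc a b) := by
    rw [uIcc_of_le hab]
    apply LipschitzOnWith.of_dist_le_mul
    intro s hs t ht
    have hs' : s ∈ Icc 0 b := ⟨ha.trans hs.1, hs.2⟩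
    have ht' : t ∈ Icc 0 b := ⟨ha.trans ht.1, ht.2⟩
    rw [Real.coe_toNNReal _ (by positivity), Real.dist_eq, Real.dist_eq]
    have hj : ∀ j : Fin 3, |‖z s k j‖ ^ 2 - ‖z t k j‖ ^ 2| ≤ 2 * |M| * (Λ * |s - t|) := by
      intro j
      have e : ‖z s k j‖ ^ 2 - ‖z t k j‖ ^ 2 =
          (‖z s k j‖ - ‖z t k j‖) * (‖z s k j‖ + ‖z t k j‖) := by ring
      rw [e, abs_mul]
      have b1 : |‖z s k j‖ - ‖z t k j‖| ≤ Λ * |s - t| := by
        refine (abs_norm_sub_norm_le _ _).trans ?_
        have b2 : ‖z s k j - z t k j‖ ≤ ‖z s k - z t k‖ := by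
          have := PiLp.norm_apply_le (z s k - z t k) j
          simpa using this
        exact b2.trans (hlip t ht' s hs')
      have b3 : |‖z s k j‖ + ‖z t k j‖| ≤ 2 * |M| := by
        rw [abs_of_nonneg (by positivity)]
        have c1 := (PiLp.norm_apply_le (z s k) j).trans (hMn s hs')
        have c2 := (PiLp.norm_apply_le (z t k) j).trans (hMn t ht')
        linarith
      calc |‖z s k j‖ - ‖z t k j‖| * |‖z s k j‖ + ‖z t k j‖|
          ≤ (Λ * |s - t|) * (2 * |M|) := by gcongr
        _ = 2 * |M| * (Λ * |s - t|) := by ring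
    have e : vsq (z s k) - vsq (z t k) = (‖z s k 0‖ ^ 2 - ‖z t k 0‖ ^ 2) +
        (‖z s k 1‖ ^ 2 - ‖z t k 1‖ ^ 2) := by unfold vsq; ring
    rw [e]
    refine (abs_add_le _ _).trans ?_
    have := hj 0
    have := hj 1
    linarith
  have hac := hL2.absolutelyContinuousOnInterval
  rw [← hac.integral_deriv_eq_sub]
  have hder : ∀ᵐ s, s ∈ uIcc a b → HasDerivAt (fun t => ∫ τ in a..t, rhs L ν g (z τ) k)
      (rhs L ν g (z s) k) s := by
    have := (h.intervalIntegrable ha (ha.trans hab) k).ae_hasDerivAt_integral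
    filter_upwards [this] with s hs hs2
    exact hs hs2 a (by simp)
  have hne : ∀ᵐ s : ℝ, s ≠ b := by
    have : (volume : Measure ℝ) {b} = 0 := by simp
    exact compl_mem_ae_iff.2 this
  refine intervalIntegral.integral_congr_ae ?_
  filter_upwards [hder, hne] with s hs hsb hs2
  have hs3 := uIoc_subset_uIcc hs2
  have h1 := hs hs3
  rw [uIoc_of_le hab] at hs2
  have hsa : a < s := hs2.1
  have h2 : HasDerivAt (fun t => z t k) (rhs L ν g (z s) k) s := by
    have h3 := h1.const_add (z a k)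
    refine h3.congr_of_eventuallyEq ?_
    filter_upwards [Ioi_mem_nhds hsa] with t ht
    have := h.eqn' ha (ha.trans (le_of_lt ht)) k
    rw [← this]; abel
  exact (hasDerivAt_vsq h2).deriv

end Pool.Agent.R216.BOU
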