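import Pool.Agent.R216.BOU.EnergyW

/-! Uniform energy bounds. -/

namespace Pool.Agent.R216.BOU

open MeasureTheory Set Filter Topology
open scoped ENNReal ComplexConjugate

variable {L ν g : ℝ} {S : ℝ → St → St}

lemma energy_star (hL : 0 < L) (hν : 0 < ν) (hg : 0 < g) (hS : IsSemigroup L ν g S)
    {x : St} (hx : IsState x) {s t : ℝ} (hs : 0 ≤ s) (hst : s ≤ t) :
    ENNReal.ofReal (uSq (S t x)) + ENNReal.ofReal ν * ∫⁻ τ in Icc s t, gradSq L (S τ x)
      ≤ ENNReal.ofReal (uSq (S s x)) +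
        ENNReal.ofReal (g ^ 2 / (ν * kk L) * tSq x * (t - s)) :=
  energy_weak hL hν hg (hS.weak x hx) hs hst (tSq_nonneg x)
    (fun τ hτ => (hS.temp x hx τ (hs.trans hτ.1)).le)

/-- the uniform bound for the kinetic energy -/
lemma uSq_bound (hL : 0 < L) (hν : 0 < ν) (hg : 0 < g) (hS : IsSemigroup L ν g S)
    {x : St} (hx : IsState x) {t₁ : ℝ} (ht₁ : 0 ≤ t₁) :
    uSq (S t₁ x) ≤ max (uSq x) (g ^ 2 / (ν * kk L) * tSq x / (ν * kk L)) := by
  have hk := kk_pos hL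
  set c : ℝ := g ^ 2 / (ν * kk L) * tSq x with hc
  have hc0 : 0 ≤ c := by have := tSq_nonneg x; positivity
  set M₂ := max (uSq x) (c / (ν * kk L)) with hM₂
  have hM0 : 0 ≤ M₂ := (uSq_nonneg x).trans (le_max_left _ _)
  have hcM : c ≤ ν * kk L * M₂ := by
    have : c / (ν * kk L) ≤ M₂ := le_max_right _ _
    rw [div_le_iff₀ (by positivity)] at this
    linarith
  by_contra hcon
  push Not at hcon
  set A : Set ℝ := {s | s ∈ Icc 0 t₁ ∧ uSq (S s x) ≤ M₂} with hA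
  have hA0 : (0 : ℝ) ∈ A := ⟨⟨le_rfl, ht₁⟩, by rw [hS.init x hx]; exact le_max_left _ _⟩
  have hAb : BddAbove A := ⟨t₁, fun s hs => hs.1.2⟩
  set σ := sSup A with hσ
  have hσ1 : σ ≤ t₁ := csSup_le ⟨0, hA0⟩ fun s hs => hs.1.2
  set δ : ℝ := (uSq (S t₁ x) - M₂) / (2 * (c + 1)) with hδ
  have hδ0 : 0 < δ := div_pos (by linarith) (by positivity)
  obtain ⟨s, hsA, hsδ⟩ := exists_lt_of_lt_csSup ⟨0, hA0⟩ (by linarith : σ - δ < σ)
  have hsσ : s ≤ σ := le_csSup hAb hsA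
  have h1 := energy_star hL hν hg hS hx hsA.1.1 hsA.1.2
  rw [← hc] at h1
  have h2 : ENNReal.ofReal (kk L * M₂ * (t₁ - σ)) ≤ ∫⁻ τ in Icc s t₁, gradSq L (S τ x) := by
    have h3 : ∫⁻ _ in Ioc σ t₁, ENNReal.ofReal (kk L * M₂) ≤
        ∫⁻ τ in Ioc σ t₁, gradSq L (S τ x) := by
      refine setLIntegral_mono' measurableSet_Ioc fun τ hτ => ?_
      have hσ0 : 0 ≤ σ := le_csSup hAb hA0
      have hτ0 : 0 ≤ τ := hσ0.trans hτ.1.le
      have h4 : M₂ < uSq (S τ x) := by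
        by_contra h5
        push Not at h5
        have : τ ∈ A := ⟨⟨hτ0, hτ.2⟩, h5⟩
        exact absurd (le_csSup hAb this) (not_le.2 hτ.1)
      refine le_trans (ENNReal.ofReal_le_ofReal ?_) (poincare _ ((hS.weak x hx).state τ hτ0))
      exact mul_le_mul_of_nonneg_left h4.le hk.le
    rw [setLIntegral_const, Real.volume_Ioc, ← ENNReal.ofReal_mul (by positivity)] at h3
    exact h3.trans (lintegral_mono_set (fun τ hτ => ⟨hsσ.trans hτ.1.le, hτ.2⟩))
  have h6 : ENNReal.ofReal (uSq (S t₁ x) + ν * (kk L * M₂ * (t₁ - σ))) ≤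
      ENNReal.ofReal (M₂ + c * (t₁ - s)) := by
    have hp1 : 0 ≤ ν * (kk L * M₂ * (t₁ - σ)) := by
      have : 0 ≤ t₁ - σ := by linarith
      positivity
    rw [ENNReal.ofReal_add (uSq_nonneg _) hp1, ENNReal.ofReal_mul hν.le]
    refine le_trans (by gcongr) (h1.trans ?_)
    rw [ENNReal.ofReal_add hM0 (mul_nonneg hc0 (by linarith))]
    gcongr
    exact hsA.2
  have hp2 : 0 ≤ c * (t₁ - s) := mul_nonneg hc0 (by linarith)
  rw [ENNReal.ofReal_le_ofReal_iff (by positivity)] at h6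
  have h7 : c * (t₁ - σ) ≤ ν * (kk L * M₂ * (t₁ - σ)) := by
    have := mul_le_mul_of_nonneg_right hcM (by linarith : 0 ≤ t₁ - σ)
    linarith
  have h8 : c * (σ - s) ≤ c * δ := mul_le_mul_of_nonneg_left (by linarith) hc0
  have h9 : c * δ < uSq (S t₁ x) - M₂ := by
    have h10 : (c + 1) * δ = (uSq (S t₁ x) - M₂) / 2 := by
      rw [hδ]; field_simp
    nlinarith
  linarith

end Pool.Agent.R216.BOU
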