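import Pool.Agent.R216.BOU.Tri2
import Pool.Agent.R216.BOU.Key

/-! The energy inequality for weak solutions. -/

namespace Pool.Agent.R216.BOU

open MeasureTheory Set Filter Topology
open scoped ENNReal ComplexConjugate

attribute [local irreducible] Rk

lemma int_comp {Ψ : C3 × C3 → ℝ} (hΨ : Continuous Ψ) {u v : ℝ → C3} {a b Λ M : ℝ}
    (hu : AEStronglyMeasurable u (volume.restrict (Icc a b)))
    (hv : AEStronglyMeasurable v (volume.restrict (Icc a b)))
    (hΛ : ∀ s ∈ Icc a b, ‖u s‖ ≤ Λ) (hM : ∀ s ∈ Icc a b, ‖v s‖ ≤ M) :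
    IntegrableOn (fun s => Ψ (u s, v s)) (Icc a b) := by
  have hK : IsCompact (Metric.closedBall (0 : C3) Λ ×ˢ Metric.closedBall (0 : C3) M) :=
    (isCompact_closedBall _ _).prod (isCompact_closedBall _ _)
  obtain ⟨C, hC⟩ := hK.exists_bound_of_continuousOn hΨ.continuousOn
  have hm : AEStronglyMeasurable (fun s => Ψ (u s, v s)) (volume.restrict (Icc a b)) :=
    hΨ.comp_aestronglyMeasurable (hu.prodMk hv)
  refine Integrable.of_bound hm C ((ae_restrict_iff' measurableSet_Icc).2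
    (Eventually.of_forall fun s hs => hC _ ⟨?_, ?_⟩))
  · exact mem_closedBall_zero_iff.2 (hΛ s hs)
  · exact mem_closedBall_zero_iff.2 (hM s hs)

lemma continuous_pr : Continuous fun p : C3 × C3 => pr p.1 p.2 := by
  unfold pr
  fun_prop

/-- the trilinear summand as a function of the convolution and of the coefficient -/
noncomputable def triC (p : C3 × C3) : ℝ :=
  (p.1 0 * conj (p.2 0) + p.1 1 * conj (p.2 1)).im

lemma continuous_triC : Continuous triC := by
  unfold triC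
  fun_prop

lemma gradSq_DD {L : ℝ} (z : St) : gradSq L z = ENNReal.ofReal (kk L) * DD z := by
  unfold gradSq DD
  rw [← ENNReal.tsum_mul_left]
  refine tsum_congr fun k => ?_
  rw [← ENNReal.ofReal_mul (by unfold kk; positivity), kk, mul_assoc]

lemma aem_gradSq (L : ℝ) {z : ℝ → St} {S : Set ℝ} (hS : MeasurableSet S)
    (hc : ∀ k, ContinuousOn (fun t => z t k) S) :
    AEMeasurable (fun t => gradSq L (z t)) (volume.restrict S) := by
  simp_rw [gradSq_eq]
  refine AEMeasurable.ennreal_tsum fun k => ?_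
  have h1 : ContinuousOn (fun t => wt L k * vsq (z t k)) S :=
    continuousOn_const.mul (continuous_vsq.comp_continuousOn (hc k))
  exact (h1.aemeasurable hS).ennreal_ofReal

variable {L ν g : ℝ} {z : ℝ → St}

lemma tri_integrable {a b M : ℝ} (hc : ∀ k, ContinuousOn (fun t => z t k) (Icc a b))
    (hM : ∀ t ∈ Icc a b, ‖z t‖ ≤ M) (F : Finset (ℤ × ℤ)) :
    IntegrableOn (fun s => ∑ k ∈ F, tri (z s) k) (Icc a b) := by
  refine integrable_finsetSum F fun k _ => ?_
  have h1 : ∀ s ∈ Icc a b, ‖conv (z s) k‖ ≤ √(nsq k) * M ^ 2 := by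
    intro s hs
    refine (norm_conv_le _ k).trans ?_
    have := pow_le_pow_left₀ (norm_nonneg (z s)) (hM s hs) 2
    exact mul_le_mul_of_nonneg_left this (Real.sqrt_nonneg _)
  exact int_comp continuous_triC (aesm_conv measurableSet_Icc hc k)
    ((hc k).aestronglyMeasurable measurableSet_Icc) h1
    (fun s hs => (norm_coef_le _ k).trans (hM s hs))

lemma tri_lim (hL : 0 < L) (h : IsWeak L ν g z) {a b : ℝ} (ha : 0 ≤ a) :
    Tendsto (fun F : Finset (ℤ × ℤ) => ∫⁻ s in Icc a b, ‖∑ k ∈ F, tri (z s) k‖ₑ)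
      atTop (𝓝 0) := by
  have hk := kk_pos hL
  obtain ⟨M₀, hM₀⟩ := h.bdd b
  set M : ℝ := |M₀| + 1 with hMd
  have hMpos : 0 < M := by positivity
  have hM : ∀ t ∈ Icc a b, ‖z t‖ ≤ M := fun t ht =>
    (hM₀ t ⟨ha.trans ht.1, ht.2⟩).trans (by rw [hMd]; linarith [le_abs_self M₀])
  have hu : ∀ t ∈ Icc a b, uSq (z t) ≤ M ^ 2 := by
    intro t ht
    have h1 := norm_sq_St (z t)
    have h2 := pow_le_pow_left₀ (norm_nonneg (z t)) (hM t ht) 2
    linarith [tSq_nonneg (z t)]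
  have hc : ∀ k, ContinuousOn (fun t => z t k) (Icc a b) := fun k =>
    (h.cont k).mono fun t ht => ha.trans ht.1
  have hgfin : ∫⁻ s in Icc a b, gradSq L (z s) ≠ ⊤ :=
    ((lintegral_mono_set (Icc_subset_Icc_left ha)).trans_lt (h.grad b)).ne
  have hDg : ∀ s, DD (z s) = (ENNReal.ofReal (kk L))⁻¹ * gradSq L (z s) := by
    intro s
    rw [gradSq_DD, ← mul_assoc, ENNReal.inv_mul_cancel (by simpa using hk)
      ENNReal.ofReal_ne_top, one_mul]
  have hinv : (ENNReal.ofReal (kk L))⁻¹ ≠ ⊤ := by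
    simpa using hk
  have h0 : Tendsto (fun F : Finset (ℤ × ℤ) => ∫⁻ s in Icc a b, ‖∑ k ∈ F, tri (z s) k‖ₑ)
      atTop (𝓝 (∫⁻ _ in Icc a b, (0 : ℝ≥0∞))) := by
    refine tendsto_of_seq_tendsto fun u hu' => ?_
    refine tendsto_lintegral_of_dominated_convergence'
      (fun s => ENNReal.ofReal (32 * M) * (ENNReal.ofReal (M ^ 2) +
        (ENNReal.ofReal (kk L))⁻¹ * gradSq L (z s))) ?_ ?_ ?_ ?_
    · exact fun n => (tri_integrable hc hM (u n)).1.enorm
    · refine fun n => (ae_restrict_iff' measurableSet_Icc).2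
        (Eventually.of_forall fun s hs => ?_)
      have h9 := tri_dom (h.state s (ha.trans hs.1)) hMpos (hu s hs) (u n)
      rw [hDg] at h9
      exact h9
    · rw [lintegral_const_mul' _ _ ENNReal.ofReal_ne_top]
      refine ENNReal.mul_ne_top ENNReal.ofReal_ne_top ?_
      rw [lintegral_add_left measurable_const, lintegral_const_mul' _ _ hinv,
        setLIntegral_const]
      refine ENNReal.add_ne_top.2 ⟨ENNReal.mul_ne_top ENNReal.ofReal_ne_top (by simp), ?_⟩
      exact ENNReal.mul_ne_top hinv hgfin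
    · have h1 := ae_lt_top' (aem_gradSq L measurableSet_Icc hc) hgfin
      filter_upwards [h1, ae_restrict_mem measurableSet_Icc] with s hs hs2
      refine (tri_tendsto (h.state s (ha.trans hs2.1)) ?_).comp hu'
      rw [hDg]
      exact ENNReal.mul_ne_top hinv hs.ne
  simpa using h0

lemma pointwise (hL : 0 < L) (hν : 0 < ν) (hg : 0 < g) {x : St} (hx : IsState x) {ρ : ℝ}
    (hρ : tSq x ≤ ρ) (F : Finset (ℤ × ℤ)) :
    (∑ k ∈ F, 2 * pr (rhs L ν g x k) (x k)) + ν * gF L F x ≤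
      g ^ 2 / (ν * kk L) * ρ + 2 * (2 * Real.pi / L / L) * |∑ k ∈ F, tri x k| := by
  have hk := kk_pos hL
  have h1 : ∀ k, 2 * g * (x k 2 * conj (x k 1)).re ≤
      ν * (wt L k * vsq (x k)) + g ^ 2 / (ν * kk L) * ‖x k 2‖ ^ 2 := by
    intro k
    have a1 : (x k 2 * conj (x k 1)).re ≤ ‖x k 2‖ * ‖x k 1‖ := by
      refine (Complex.re_le_norm _).trans ?_
      rw [norm_mul, Complex.norm_conj]
    have a2 : kk L * ‖x k 1‖ ^ 2 ≤ wt L k * vsq (x k) := by
      by_cases hk0 : k = 0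
      · subst hk0
        rw [hx.1.2, norm_zero]
        have := mul_nonneg (wt_nonneg L 0) (vsq_nonneg (x 0))
        simpa using this
      · have b1 : 1 ≤ nsq k := by
          have : k.1 ≠ 0 ∨ k.2 ≠ 0 := by
            by_contra hcon
            push Not at hcon
            exact hk0 (Prod.ext hcon.1 hcon.2)
          have h2 : 1 ≤ k.1 ^ 2 + k.2 ^ 2 := by
            rcases this with h | h
            · have : 0 < k.1 ^ 2 := by positivity
              nlinarith [sq_nonneg k.2]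
            · have : 0 < k.2 ^ 2 := by positivity
              nlinarith [sq_nonneg k.1]
          unfold nsq
          exact_mod_cast h2
        have b2 : ‖x k 1‖ ^ 2 ≤ vsq (x k) := by unfold vsq; nlinarith [sq_nonneg ‖x k 0‖]
        have b3 : kk L ≤ wt L k := by
          unfold kk wt
          nlinarith [sq_nonneg (2 * Real.pi / L)]
        exact mul_le_mul b3 b2 (by positivity) (wt_nonneg L k)
    have a3 : 2 * g * (‖x k 2‖ * ‖x k 1‖) ≤
        ν * (kk L * ‖x k 1‖ ^ 2) + g ^ 2 / (ν * kk L) * ‖x k 2‖ ^ 2 := by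
      set s := √(ν * kk L) with hs
      have hs0 : 0 < s := Real.sqrt_pos.2 (by positivity)
      have hs2 : s ^ 2 = ν * kk L := Real.sq_sqrt (by positivity)
      rw [← mul_assoc ν, ← hs2]
      have : 0 ≤ (s * ‖x k 1‖ - g / s * ‖x k 2‖) ^ 2 := sq_nonneg _
      have e2 : (s * ‖x k 1‖ - g / s * ‖x k 2‖) ^ 2 =
          s ^ 2 * ‖x k 1‖ ^ 2 + g ^ 2 / s ^ 2 * ‖x k 2‖ ^ 2 - 2 * g * (‖x k 2‖ * ‖x k 1‖) := by
        field_simp
        ring
      linarith
    have a4 : ν * (kk L * ‖x k 1‖ ^ 2) ≤ ν * (wt L k * vsq (x k)) :=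
      mul_le_mul_of_nonneg_left a2 hν.le
    have a5 : 2 * g * (x k 2 * conj (x k 1)).re ≤ 2 * g * (‖x k 2‖ * ‖x k 1‖) :=
      mul_le_mul_of_nonneg_left a1 (by positivity)
    linarith
  have h2 : ∑ k ∈ F, ‖x k 2‖ ^ 2 ≤ ρ :=
    ((summable_tsq x).sum_le_tsum F fun k _ => by positivity).trans hρ
  have h3 : ∑ k ∈ F, 2 * pr (rhs L ν g x k) (x k) ≤
      ∑ k ∈ F, (-(ν * (wt L k * vsq (x k))) + g ^ 2 / (ν * kk L) * ‖x k 2‖ ^ 2 +
        2 * (2 * Real.pi / L / L) * tri x k) := by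
    refine Finset.sum_le_sum fun k _ => ?_
    rw [pr_rhs hx k]
    linarith [h1 k]
  have h4 : ∑ k ∈ F, (-(ν * (wt L k * vsq (x k))) + g ^ 2 / (ν * kk L) * ‖x k 2‖ ^ 2 +
        2 * (2 * Real.pi / L / L) * tri x k) = -(ν * gF L F x) +
        g ^ 2 / (ν * kk L) * ∑ k ∈ F, ‖x k 2‖ ^ 2 +
        2 * (2 * Real.pi / L / L) * ∑ k ∈ F, tri x k := by
    rw [Finset.sum_add_distrib, Finset.sum_add_distrib, gF, Finset.mul_sum, Finset.mul_sum,
      Finset.mul_sum, Finset.sum_neg_distrib]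
  have h5 : g ^ 2 / (ν * kk L) * ∑ k ∈ F, ‖x k 2‖ ^ 2 ≤ g ^ 2 / (ν * kk L) * ρ :=
    mul_le_mul_of_nonneg_left h2 (by positivity)
  have h6 : 2 * (2 * Real.pi / L / L) * ∑ k ∈ F, tri x k ≤
      2 * (2 * Real.pi / L / L) * |∑ k ∈ F, tri x k| :=
    mul_le_mul_of_nonneg_left (le_abs_self _) (by positivity)
  linarith

lemma finite_energy (hL : 0 < L) (hν : 0 < ν) (hg : 0 < g) (h : IsWeak L ν g z) {a b ρ : ℝ}
    (ha : 0 ≤ a) (hab : a ≤ b) (hρ : ∀ t ∈ Icc a b, tSq (z t) ≤ ρ) (F : Finset (ℤ × ℤ)) :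
    (∑ k ∈ F, vsq (z b k)) + ν * (∫ s in a..b, gF L F (z s)) ≤ uSq (z a) +
      g ^ 2 / (ν * kk L) * ρ * (b - a) +
      2 * (2 * Real.pi / L / L) * ∫ s in a..b, |∑ k ∈ F, tri (z s) k| := by
  have hk := kk_pos hL
  obtain ⟨M, hM₀⟩ := h.bdd b
  have hM : ∀ t ∈ Icc a b, ‖z t‖ ≤ M := fun t ht => hM₀ t ⟨ha.trans ht.1, ht.2⟩
  have hc : ∀ k, ContinuousOn (fun t => z t k) (Icc a b) := fun k =>
    (h.cont k).mono fun t ht => ha.trans ht.1
  have hu := uIcc_of_le hab
  have i1 : ∀ k, IntervalIntegrable (fun s => 2 * pr (rhs L ν g (z s) k) (z s k)) volume a b := by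
    intro k
    obtain ⟨Λ, _, hΛ⟩ := rhs_norm_le (L := L) (ν := ν) (g := g) k M
    have h1 := int_comp continuous_pr (aesm_rhs (L := L) (ν := ν) (g := g) measurableSet_Icc hc k)
      ((hc k).aestronglyMeasurable measurableSet_Icc) (fun s hs => hΛ _ (hM s hs))
      (fun s hs => (norm_coef_le _ k).trans (hM s hs))
    rw [← hu] at h1
    exact h1.intervalIntegrable.const_mul 2
  have i2 : IntervalIntegrable (fun s => gF L F (z s)) volume a b :=
    (hu ▸ contOn_comp hc (continuous_gF L F)).intervalIntegrable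
  have i3 : IntervalIntegrable (fun s => |∑ k ∈ F, tri (z s) k|) volume a b := by
    have h1 := tri_integrable hc hM F
    rw [← hu] at h1
    exact h1.intervalIntegrable.abs
  have e1 : ∑ k ∈ F, vsq (z b k) - ∑ k ∈ F, vsq (z a k) =
      ∫ s in a..b, ∑ k ∈ F, 2 * pr (rhs L ν g (z s) k) (z s k) := by
    rw [intervalIntegral.integral_finsetSum fun k _ => i1 k, ← Finset.sum_sub_distrib]
    exact Finset.sum_congr rfl fun k _ => h.vsq_sub ha hab k
  have i4 : IntervalIntegrable (fun s => ∑ k ∈ F, 2 * pr (rhs L ν g (z s) k) (z s k))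
      volume a b := by
    have e : (fun s => ∑ k ∈ F, 2 * pr (rhs L ν g (z s) k) (z s k)) =
        ∑ k ∈ F, fun s => 2 * pr (rhs L ν g (z s) k) (z s k) := by
      funext s
      rw [Finset.sum_apply]
    rw [e]
    exact IntervalIntegrable.sum F fun k _ => i1 k
  have h1 : (∫ s in a..b, ((∑ k ∈ F, 2 * pr (rhs L ν g (z s) k) (z s k)) + ν * gF L F (z s))) ≤
      ∫ s in a..b, (g ^ 2 / (ν * kk L) * ρ +
        2 * (2 * Real.pi / L / L) * |∑ k ∈ F, tri (z s) k|) := by
    refine intervalIntegral.integral_mono_on hab (i4.add (i2.const_mul ν))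
      (intervalIntegrable_const.add (i3.const_mul _)) fun s hs => ?_
    exact pointwise hL hν hg (h.state s (ha.trans hs.1)) (hρ s hs) F
  rw [intervalIntegral.integral_add i4 (i2.const_mul ν),
    intervalIntegral.integral_add intervalIntegrable_const (i3.const_mul _),
    intervalIntegral.integral_const_mul,
    intervalIntegral.integral_const, smul_eq_mul, ← e1] at h1
  have e3 : (∫ s in a..b, 2 * (2 * Real.pi / L / L) * |∑ k ∈ F, tri (z s) k|) =
      2 * (2 * Real.pi / L / L) * ∫ s in a..b, |∑ k ∈ F, tri (z s) k| :=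
    intervalIntegral.integral_const_mul _ _
  rw [e3] at h1
  have h2 : ∑ k ∈ F, vsq (z a k) ≤ uSq (z a) :=
    (summable_vsq (z a)).sum_le_tsum F fun k _ => vsq_nonneg _
  linarith

lemma energy_weak (hL : 0 < L) (hν : 0 < ν) (hg : 0 < g) (h : IsWeak L ν g z) {a b ρ : ℝ}
    (ha : 0 ≤ a) (hab : a ≤ b) (hρ0 : 0 ≤ ρ) (hρ : ∀ t ∈ Icc a b, tSq (z t) ≤ ρ) :
    ENNReal.ofReal (uSq (z b)) + ENNReal.ofReal ν * ∫⁻ s in Icc a b, gradSq L (z s) ≤
      ENNReal.ofReal (uSq (z a)) + ENNReal.ofReal (g ^ 2 / (ν * kk L) * ρ * (b - a)) := by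
  have hk := kk_pos hL
  obtain ⟨M, hM₀⟩ := h.bdd b
  have hM : ∀ t ∈ Icc a b, ‖z t‖ ≤ M := fun t ht => hM₀ t ⟨ha.trans ht.1, ht.2⟩
  have hc : ∀ k, ContinuousOn (fun t => z t k) (Icc a b) := fun k =>
    (h.cont k).mono fun t ht => ha.trans ht.1
  have hu := uIcc_of_le hab
  -- the nonlinear contribution tends to zero
  have hT : Tendsto (fun F : Finset (ℤ × ℤ) => ∫ s in a..b, |∑ k ∈ F, tri (z s) k|)
      atTop (𝓝 0) := by
    have h1 := tri_lim hL h (b := b) ha
    have h2 := (ENNReal.tendsto_toReal ENNReal.zero_ne_top).comp h1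
    rw [ENNReal.toReal_zero] at h2
    refine h2.congr fun F => ?_
    simp only [Function.comp]
    rw [intervalIntegral.integral_of_le hab, ← integral_Icc_eq_integral_Ioc]
    simp_rw [← Real.norm_eq_abs]
    rw [integral_norm_eq_lintegral_enorm (tri_integrable hc hM F).1]
  have hfin : ∀ F₀ : Finset (ℤ × ℤ),
      (∑ k ∈ F₀, vsq (z b k)) + ν * (∫ s in a..b, gF L F₀ (z s)) ≤
        uSq (z a) + g ^ 2 / (ν * kk L) * ρ * (b - a) := by
    intro F₀
    have h3 : Tendsto (fun F : Finset (ℤ × ℤ) => uSq (z a) +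
        g ^ 2 / (ν * kk L) * ρ * (b - a) +
        2 * (2 * Real.pi / L / L) * ∫ s in a..b, |∑ k ∈ F, tri (z s) k|) atTop
        (𝓝 (uSq (z a) + g ^ 2 / (ν * kk L) * ρ * (b - a) + 2 * (2 * Real.pi / L / L) * 0)) :=
      (hT.const_mul _).const_add _
    rw [mul_zero, add_zero] at h3
    refine ge_of_tendsto h3 ?_
    filter_upwards [eventually_ge_atTop F₀] with F hF
    refine le_trans ?_ (finite_energy hL hν hg h ha hab hρ F)
    have h4 : ∑ k ∈ F₀, vsq (z b k) ≤ ∑ k ∈ F, vsq (z b k) :=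
      Finset.sum_le_sum_of_subset_of_nonneg hF fun k _ _ => vsq_nonneg _
    have h5 : (∫ s in a..b, gF L F₀ (z s)) ≤ ∫ s in a..b, gF L F (z s) := by
      refine intervalIntegral.integral_mono_on hab
        (hu ▸ contOn_comp hc (continuous_gF L F₀)).intervalIntegrable
        (hu ▸ contOn_comp hc (continuous_gF L F)).intervalIntegrable fun s _ => ?_
      exact Finset.sum_le_sum_of_subset_of_nonneg hF fun k _ _ =>
        mul_nonneg (wt_nonneg L k) (vsq_nonneg _)
    have h6 := mul_le_mul_of_nonneg_left h5 hν.le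
    linarith
  have hm : ∀ k, AEMeasurable (fun t => ENNReal.ofReal (wt L k * vsq (z t k)))
      (volume.restrict (Icc a b)) := by
    intro k
    have h1 : ContinuousOn (fun t => wt L k * vsq (z t k)) (Icc a b) :=
      continuousOn_const.mul (continuous_vsq.comp_continuousOn (hc k))
    exact (h1.aemeasurable measurableSet_Icc).ennreal_ofReal
  have e1 : ENNReal.ofReal (uSq (z b)) = ∑' k, ENNReal.ofReal (vsq (z b k)) :=
    ENNReal.ofReal_tsum_of_nonneg (fun k => vsq_nonneg _) (summable_vsq _)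
  simp_rw [gradSq_eq]
  rw [lintegral_tsum hm, ← ENNReal.tsum_mul_left, e1, ← ENNReal.tsum_add,
    ENNReal.tsum_eq_iSup_sum]
  refine iSup_le fun F₀ => ?_
  rw [Finset.sum_add_distrib, ← Finset.mul_sum, ← lintegral_finsetSum' F₀ (fun k _ => hm k)]
  have h2 : ∀ t, ∑ k ∈ F₀, ENNReal.ofReal (wt L k * vsq (z t k)) =
      ENNReal.ofReal (gF L F₀ (z t)) := by
    intro t
    rw [gF, ENNReal.ofReal_sum_of_nonneg fun k _ => mul_nonneg (wt_nonneg L k) (vsq_nonneg _)]
  simp_rw [h2]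
  have h3 : ∫⁻ t in Icc a b, ENNReal.ofReal (gF L F₀ (z t)) =
      ENNReal.ofReal (∫ t in a..b, gF L F₀ (z t)) := by
    rw [intervalIntegral.integral_of_le hab, ← integral_Icc_eq_integral_Ioc]
    exact (ofReal_integral_eq_lintegral_ofReal
      ((contOn_comp hc (continuous_gF L F₀)).integrableOn_Icc)
      (Eventually.of_forall fun t => gF_nonneg L F₀ _)).symm
  have h4 : 0 ≤ ∫ t in a..b, gF L F₀ (z t) :=
    intervalIntegral.integral_nonneg hab fun t _ => gF_nonneg L F₀ _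
  have h5 : 0 ≤ g ^ 2 / (ν * kk L) * ρ * (b - a) := by
    have : 0 ≤ b - a := by linarith
    positivity
  rw [h3, ← ENNReal.ofReal_sum_of_nonneg fun k _ => vsq_nonneg _, ← ENNReal.ofReal_mul hν.le,
    ← ENNReal.ofReal_add (Finset.sum_nonneg fun k _ => vsq_nonneg _) (by positivity),
    ← ENNReal.ofReal_add (uSq_nonneg _) h5]
  exact ENNReal.ofReal_le_ofReal (hfin F₀)

end Pool.Agent.R216.BOU
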