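import Pool.Agent.R216.BOU.Basic

/-! Weak limits. -/

namespace Pool.Agent.R216.BOU

open MeasureTheory Set Filter Topology
open scoped ENNReal ComplexConjugate

lemma exlim {ι : Type*} (U : Ultrafilter ι) {y : ι → St} {M : ℝ} (hM0 : 0 ≤ M)
    (hy : ∀ᶠ i in (U : Filter ι), ‖y i‖ ≤ M) :
    ∃ w : St, ‖w‖ ≤ M ∧ ∀ k, Tendsto (fun i => y i k) U (𝓝 (w k)) := by
  classical
  set y' : ι → St := fun i => if ‖y i‖ ≤ M then y i else 0 with hy'
  have hb : ∀ i, ‖y' i‖ ≤ M := by
    intro i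
    by_cases h : ‖y i‖ ≤ M
    · simpa [hy', h] using h
    · simp [hy', h, hM0]
  have hlim : ∀ k, ∃ a : C3, Tendsto (fun i => y' i k) U (𝓝 a) := by
    intro k
    have hK : IsCompact (Metric.closedBall (0 : C3) M) := isCompact_closedBall _ _
    obtain ⟨a, -, ha⟩ := hK.ultrafilter_le_nhds (U.map fun i => y' i k) (by
      rw [le_principal_iff]
      refine Ultrafilter.mem_map.2 (Eventually.of_forall fun i => ?_)
      exact mem_closedBall_zero_iff.2 ((norm_coef_le _ k).trans (hb i)))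
    exact ⟨a, ha⟩
  choose a ha using hlim
  have hpi : Tendsto (id fun i => (y' i : ℤ × ℤ → C3)) (U : Filter ι) (𝓝 a) :=
    tendsto_pi_nhds.2 ha
  have hbd : Bornology.IsBounded (Set.range y') := by
    rw [isBounded_iff_forall_norm_le]
    exact ⟨M, by rintro _ ⟨i, rfl⟩; exact hb i⟩
  have hmem : Memℓp a 2 := lp.memℓp_of_tendsto hbd hpi
  refine ⟨⟨a, hmem⟩, lp.norm_le_of_tendsto (Eventually.of_forall hb) hpi, fun k => ?_⟩
  refine (ha k).congr' ?_
  filter_upwards [hy] with i hi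
  simp [hy', hi]

/-- a state with a single nonzero coefficient -/
noncomputable def sg (k : ℤ × ℤ) (a : C3) : St := lp.single 2 k a

lemma inner_sg (k : ℤ × ℤ) (a : C3) (d : St) : inner ℂ (sg k a) d = inner ℂ a (d k) := by
  exact lp.inner_single_left (𝕜 := ℂ) (G := fun _ : ℤ × ℤ => C3) k a d

lemma hasSum_sg (h : St) : HasSum (fun k => sg k (h k)) h := by
  have hs := lp.hasSum_single (E := fun _ : ℤ × ℤ => C3) (p := 2) (by norm_num) h
  exact hs

lemma inner_sum_sg (F : Finset (ℤ × ℤ)) (h d : St) :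
    inner ℂ (∑ k ∈ F, sg k (h k)) d = ∑ k ∈ F, inner ℂ (h k) (d k) := by
  rw [sum_inner]
  exact Finset.sum_congr rfl fun k _ => inner_sg k (h k) d

lemma tendsto_inner_C3 {ι : Type*} {U : Filter ι} (a : C3) {f : ι → C3}
    (hf : Tendsto f U (𝓝 0)) : Tendsto (fun i => inner ℂ a (f i)) U (𝓝 0) := by
  have h := ((innerSL ℂ a).continuous.tendsto 0).comp hf
  rw [map_zero] at h
  exact h

lemma tendsto_inner_fin {ι : Type*} {U : Filter ι} {d : ι → St}
    (hlim : ∀ k, Tendsto (fun i => d i k) U (𝓝 0)) (h : St) (F : Finset (ℤ × ℤ)) :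
    Tendsto (fun i => inner ℂ (∑ k ∈ F, sg k (h k)) (d i)) U (𝓝 0) := by
  have h4 : Tendsto (fun i => ∑ k ∈ F, inner ℂ (h k) (d i k)) U (𝓝 (∑ _k ∈ F, (0 : ℂ))) :=
    tendsto_finsetSum F fun k _ => tendsto_inner_C3 (h k) (hlim k)
  rw [Finset.sum_const_zero] at h4
  exact h4.congr fun i => (inner_sum_sg F h (d i)).symm

lemma tendsto_inner {ι : Type*} {U : Filter ι} {d : ι → St} {M : ℝ}
    (hM : ∀ᶠ i in U, ‖d i‖ ≤ M) (hlim : ∀ k, Tendsto (fun i => d i k) U (𝓝 0)) (h : St) :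
    Tendsto (fun i => inner ℂ h (d i)) U (𝓝 0) := by
  have hs := hasSum_sg h
  rw [Metric.tendsto_nhds]
  intro ε hε
  have h1 : ∃ F : Finset (ℤ × ℤ), ‖(∑ k ∈ F, sg k (h k)) - h‖ < ε / (2 * (|M| + 1)) := by
    have h2 : Tendsto (fun F : Finset (ℤ × ℤ) => ∑ k ∈ F, sg k (h k)) atTop (𝓝 h) := hs
    rw [Metric.tendsto_nhds] at h2
    obtain ⟨F, hF⟩ := (h2 (ε / (2 * (|M| + 1))) (by positivity)).exists
    exact ⟨F, by rwa [dist_eq_norm] at hF⟩
  obtain ⟨F, hF⟩ := h1
  have h2 := tendsto_inner_fin hlim h F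
  rw [Metric.tendsto_nhds] at h2
  filter_upwards [h2 (ε / 2) (by positivity), hM] with i h5 h6
  rw [dist_zero_right] at h5 ⊢
  have e : inner ℂ h (d i) = inner ℂ (∑ k ∈ F, sg k (h k)) (d i) -
      inner ℂ ((∑ k ∈ F, sg k (h k)) - h) (d i) := by
    rw [inner_sub_left, sub_sub_cancel]
  rw [e]
  have h7 : ‖inner ℂ ((∑ k ∈ F, sg k (h k)) - h) (d i)‖ ≤ ε / 2 := by
    refine (norm_inner_le_norm _ _).trans ?_
    calc ‖(∑ k ∈ F, sg k (h k)) - h‖ * ‖d i‖
        ≤ ε / (2 * (|M| + 1)) * (|M| + 1) := by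
          have : ‖d i‖ ≤ |M| + 1 := by linarith [le_abs_self M]
          exact mul_le_mul hF.le this (norm_nonneg _) (by positivity)
      _ = ε / 2 := by field_simp
  have h8 := norm_sub_le (inner ℂ (∑ k ∈ F, sg k (h k)) (d i))
    (inner ℂ ((∑ k ∈ F, sg k (h k)) - h) (d i))
  linarith

/-- a coefficientwise limit of a bounded family in `X` lies in the weak closure of `X` -/
lemma mem_wkClosure {ι : Type*} {U : Filter ι} [NeBot U] {y : ι → St} {x : St} {X : Set St}
    {M : ℝ} (hM : ∀ᶠ i in U, ‖y i‖ ≤ M) (hX : ∀ᶠ i in U, y i ∈ X)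
    (hlim : ∀ k, Tendsto (fun i => y i k) U (𝓝 (x k))) : x ∈ wkClosure X := by
  intro F ε hε
  have h1 : ∀ h ∈ F, ∀ᶠ i in U, ‖inner ℂ h (y i - x)‖ < ε := by
    intro h _
    have h2 := tendsto_inner (U := U) (d := fun i => y i - x) (M := M + ‖x‖)
      (hM.mono fun i hi => (norm_sub_le _ _).trans (by linarith)) (fun k => by
        have := (hlim k).sub_const (x k)
        rw [sub_self] at this
        exact this) h
    rw [Metric.tendsto_nhds] at h2
    simpa using h2 ε hε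
  obtain ⟨i, hi1, hi2⟩ := (((Finset.eventually_all F).2 h1).and hX).exists
  exact ⟨y i, hi2, hi1⟩

/-- convergence of all inner products implies convergence of the coefficients -/
lemma coef_of_inner {ι : Type*} {U : Filter ι} {y : ι → St} {x : St}
    (h : ∀ h : St, Tendsto (fun i => inner ℂ h (y i - x)) U (𝓝 0)) (k : ℤ × ℤ) :
    Tendsto (fun i => y i k) U (𝓝 (x k)) := by
  classical
  have h1 : ∀ j : Fin 3, Tendsto (fun i => y i k j) U (𝓝 (x k j)) := by
    intro j
    have h2 := h (sg k (EuclideanSpace.single j (1 : ℂ)))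
    have h3 : ∀ i, inner ℂ (sg k (EuclideanSpace.single j (1 : ℂ))) (y i - x) =
        y i k j - x k j := by
      intro i
      rw [inner_sg, EuclideanSpace.inner_single_left]
      simp
    simp_rw [h3] at h2
    have h4 := h2.add_const (x k j)
    simpa using h4
  have h5 : Tendsto (fun i => (EuclideanSpace.equiv (Fin 3) ℂ) (y i k)) U
      (𝓝 ((EuclideanSpace.equiv (Fin 3) ℂ) (x k))) := tendsto_pi_nhds.2 h1
  have h6 := ((EuclideanSpace.equiv (Fin 3) ℂ).symm.continuous.tendsto _).comp h5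
  rw [ContinuousLinearEquiv.symm_apply_apply] at h6
  exact h6.congr fun i => ContinuousLinearEquiv.symm_apply_apply _ _

end Pool.Agent.R216.BOU
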