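import Pool.Agent.R216.BOU.Bounds
import Pool.Agent.R216.BOU.Weak
import Pool.Agent.R216.BOU.Key

/-! Points of the weak omega-limit sets lie on the attractor. -/

namespace Pool.Agent.R216.BOU

open MeasureTheory Set Filter Topology
open scoped ENNReal ComplexConjugate

variable {L ν g : ℝ} {S : ℝ → St → St}

lemma omega_sub (hL : 0 < L) (hν : 0 < ν) (hg : 0 < g) (hS : IsSemigroup L ν g S)
    {r : ℝ} {y : St} (hy : y ∈ omegaLim S (Btilde L ν g r)) : y ∈ attractor L ν g := by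
  classical
  have h1 : ∀ i : Finset St × ℕ, ∃ p : ℝ × St, (i.2 : ℝ) < p.1 ∧ p.2 ∈ Btilde L ν g r ∧
      ∀ h ∈ i.1, ‖inner ℂ h (S p.1 p.2 - y)‖ < 1 / ((i.2 : ℝ) + 1) := by
    intro i
    have h2 := mem_iInter₂.1 hy (i.2 : ℝ) (mem_Ici.2 (Nat.cast_nonneg _))
    obtain ⟨p, ⟨t, ht, x, hx, rfl⟩, hp⟩ := h2 i.1 (1 / ((i.2 : ℝ) + 1)) (by positivity)
    exact ⟨(t, x), ht, hx, hp⟩
  choose p hp1 hp2 hp3 using h1
  set U : Ultrafilter (Finset St × ℕ) := Ultrafilter.of (atTop : Filter (Finset St × ℕ)) with hU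
  have hUa : (U : Filter (Finset St × ℕ)) ≤ atTop := Ultrafilter.of_le _
  have hinner : ∀ h : St, Tendsto (fun i => inner ℂ h (S (p i).1 (p i).2 - y)) U (𝓝 0) := by
    intro h
    rw [Metric.tendsto_nhds]
    intro ε hε
    obtain ⟨n, hn⟩ := exists_nat_one_div_lt hε
    refine hUa ?_
    filter_upwards [eventually_ge_atTop (({h} : Finset St), n)] with i hi
    rw [dist_zero_right]
    have hi1 : h ∈ i.1 := hi.1 (Finset.mem_singleton_self h)
    have hi2 : (n : ℝ) ≤ i.2 := by exact_mod_cast hi.2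
    refine (hp3 i h hi1).trans_le (le_trans ?_ hn.le)
    exact one_div_le_one_div_of_le (by positivity) (by linarith)
  have htime : ∀ A : ℝ, ∀ᶠ i in (U : Filter (Finset St × ℕ)), A ≤ (p i).1 := by
    intro A
    obtain ⟨n, hn⟩ := exists_nat_ge A
    refine hUa ?_
    filter_upwards [eventually_ge_atTop ((∅ : Finset St), n)] with i hi
    have hi2 : (n : ℝ) ≤ i.2 := by exact_mod_cast hi.2
    exact (hn.trans hi2).trans (hp1 i).le
  set M := √(M2 L ν g r + r ^ 2) with hM
  have hW : ∀ s : ℝ, ∃ w : St, ‖w‖ ≤ M ∧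
      ∀ k, Tendsto (fun i => S ((p i).1 + s) (p i).2 k) U (𝓝 (w k)) := by
    intro s
    refine exlim U (Real.sqrt_nonneg _) ?_
    filter_upwards [htime (-s)] with i hi
    exact Bt_bound hL hν hg hS (hp2 i) (by linarith)
  choose W hWM hWlim using hW
  have hW0 : W 0 = y := by
    apply lp.ext
    funext k
    have h2 := hWlim 0 k
    simp only [add_zero] at h2
    exact tendsto_nhds_unique h2 (coef_of_inner hinner k)
  refine ⟨W, fun t₀ => ?_, hW0, M, hWM⟩
  refine key (U := (U : Filter (Finset St × ℕ))) (M := M) hL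
    (z := fun i t => S ((p i).1 + t₀ + t) (p i).2) ?_ ?_ (fun t _ => hWM _) ?_ ?_
  · filter_upwards [htime (-t₀)] with i hi
    exact (hS.weak (p i).2 (hp2 i).1).shift (a := (p i).1 + t₀) (by linarith)
  · filter_upwards [htime (-t₀)] with i hi t ht
    exact Bt_bound hL hν hg hS (hp2 i) (by linarith)
  · intro T hT
    obtain ⟨C, hC0, hC⟩ := Bt_grad hL hν hg hS r hT
    refine ⟨C, hC0, ?_⟩
    filter_upwards [htime (-t₀)] with i hi
    exact hC _ (hp2 i) _ (by linarith)
  · intro t _ k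
    have h2 := hWlim (t₀ + t) k
    simp only [← add_assoc] at h2
    exact h2

end Pool.Agent.R216.BOU
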