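import Mathlib

/-! A Ladyzhenskaya type inequality for sequences. -/

namespace Pool.Agent.R216.BOU.Y

open MeasureTheory Set Filter Topology
open scoped ENNReal

/-- Hölder inequality for sums -/
lemma hold {p q : ℝ} (hpq : p.HolderConjugate q) (f g : ℤ × ℤ → ℝ≥0∞) :
    ∑' k, f k * g k ≤ (∑' k, f k ^ p) ^ (1 / p) * (∑' k, g k ^ q) ^ (1 / q) := by
  have h := ENNReal.lintegral_mul_le_Lp_mul_Lq (μ := (Measure.count : Measure (ℤ × ℤ))) hpq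
    (f := f) (g := g) Measurable.of_discrete.aemeasurable Measurable.of_discrete.aemeasurable
  rw [lintegral_count, lintegral_count, lintegral_count] at h
  exact h

lemma cs (f g : ℤ × ℤ → ℝ≥0∞) :
    (∑' k, f k * g k) ^ 2 ≤ (∑' k, f k ^ 2) * ∑' k, g k ^ 2 := by
  have h := hold Real.HolderConjugate.two_two f g
  have h2 : (∑' k, f k * g k) ^ 2 ≤
      ((∑' k, f k ^ (2 : ℝ)) ^ (1 / 2 : ℝ) * (∑' k, g k ^ (2 : ℝ)) ^ (1 / 2 : ℝ)) ^ 2 := by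
    gcongr
  refine h2.trans (le_of_eq ?_)
  rw [mul_pow, ← ENNReal.rpow_natCast, ← ENNReal.rpow_natCast, ← ENNReal.rpow_mul,
    ← ENNReal.rpow_mul]
  norm_num

/-- Young inequality `‖α * β‖₂ ≤ ‖α‖_{4/3} ‖β‖_{4/3}` with `α = a³`, `β = b³` -/
lemma young (a b : ℤ × ℤ → ℝ≥0∞) :
    ∑' k, (∑' m, a (k - m) ^ 3 * b m ^ 3) ^ 2 ≤
      ((∑' k, a k ^ 4) * ∑' k, b k ^ 4) * ((∑' k, a k ^ 4) * ∑' k, b k ^ 4) ^ (1 / 2 : ℝ) := by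
  set A := ∑' k, a k ^ 4 with hA
  set B := ∑' k, b k ^ 4 with hB
  have hsh : ∀ k, ∑' m, a (k - m) ^ 4 = A := fun k =>
    (Equiv.subLeft k).tsum_eq (fun m => a m ^ 4)
  have h1 : ∀ k, (∑' m, a (k - m) ^ 3 * b m ^ 3) ^ 2 ≤
      (∑' m, a (k - m) ^ 4 * b m ^ 4) * (A * B) ^ (1 / 2 : ℝ) := by
    intro k
    have e1 : ∀ m, a (k - m) ^ 3 * b m ^ 3 = (a (k - m) ^ 2 * b m ^ 2) * (a (k - m) * b m) := by
      intro m; ring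
    simp_rw [e1]
    refine (cs _ _).trans ?_
    have e2 : ∀ m, (a (k - m) ^ 2 * b m ^ 2) ^ 2 = a (k - m) ^ 4 * b m ^ 4 := by
      intro m; ring
    simp_rw [e2]
    gcongr
    have h2 := cs (fun m => a (k - m) ^ 2) (fun m => b m ^ 2)
    have e3 : ∀ m, (a (k - m) * b m) ^ 2 = a (k - m) ^ 2 * b m ^ 2 := by intro m; ring
    simp_rw [e3]
    have e4 : ∀ m, (a (k - m) ^ 2) ^ 2 = a (k - m) ^ 4 := by intro m; ring
    have e5 : ∀ m, (b m ^ 2) ^ 2 = b m ^ 4 := by intro m; ring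
    simp_rw [e4, e5] at h2
    rw [hsh k, ← hB] at h2
    have h3 : ((∑' m, a (k - m) ^ 2 * b m ^ 2) ^ 2) ^ (1 / 2 : ℝ) ≤ (A * B) ^ (1 / 2 : ℝ) :=
      ENNReal.rpow_le_rpow h2 (by norm_num)
    rw [← ENNReal.rpow_natCast, ← ENNReal.rpow_mul] at h3
    norm_num at h3 ⊢
    exact h3
  refine (ENNReal.tsum_le_tsum h1).trans ?_
  rw [ENNReal.tsum_mul_right]
  gcongr
  rw [ENNReal.tsum_comm]
  have h4 : ∀ m, ∑' k, a (k - m) ^ 4 * b m ^ 4 = A * b m ^ 4 := by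
    intro m
    rw [ENNReal.tsum_mul_right]
    congr 1
    exact (Equiv.subRight m).tsum_eq (fun k => a k ^ 4)
  simp_rw [h4]
  rw [ENNReal.tsum_mul_left]

/-- one-dimensional lattice sum -/
lemma sum1 (n : ℕ) (hn : 1 ≤ n) :
    ∑' j : ℤ, ENNReal.ofReal ((n : ℝ) ^ 2 / ((n : ℝ) ^ 2 + (j : ℝ) ^ 2)) ≤
      ENNReal.ofReal (8 * n) := by
  have hn0 : (0 : ℝ) < n := by exact_mod_cast hn
  have key : ∀ j : ℕ, (n : ℝ) ^ 2 / ((n : ℝ) ^ 2 + (j : ℝ) ^ 2) ≤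
      4 * (n : ℝ) ^ 2 * (1 / ((n : ℝ) + (j : ℕ)) - 1 / ((n : ℝ) + ((j + 1 : ℕ) : ℝ))) := by
    intro j
    have hj : (0 : ℝ) ≤ j := Nat.cast_nonneg j
    have hn1 : (1 : ℝ) ≤ n := by exact_mod_cast hn
    have e : 1 / ((n : ℝ) + (j : ℕ)) - 1 / ((n : ℝ) + ((j + 1 : ℕ) : ℝ)) =
        1 / (((n : ℝ) + j) * ((n : ℝ) + j + 1)) := by
      push_cast
      field_simp
      ring
    rw [e, mul_one_div, div_le_div_iff₀ (by positivity) (by positivity)]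
    have h1 : ((n : ℝ) + j) * ((n : ℝ) + j + 1) ≤ 4 * ((n : ℝ) ^ 2 + (j : ℝ) ^ 2) := by
      nlinarith [sq_nonneg ((n : ℝ) - j)]
    nlinarith [mul_le_mul_of_nonneg_left h1 (sq_nonneg (n : ℝ))]
  have hnat : ∑' j : ℕ, ENNReal.ofReal ((n : ℝ) ^ 2 / ((n : ℝ) ^ 2 + (j : ℝ) ^ 2)) ≤
      ENNReal.ofReal (4 * n) := by
    refine ENNReal.tsum_le_of_sum_range_le fun N => ?_
    rw [← ENNReal.ofReal_sum_of_nonneg fun j _ => by positivity]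
    refine ENNReal.ofReal_le_ofReal ((Finset.sum_le_sum fun j _ => key j).trans ?_)
    rw [← Finset.mul_sum, Finset.sum_range_sub' (fun j : ℕ => 1 / ((n : ℝ) + (j : ℝ))) N]
    have h2 : (0 : ℝ) ≤ 1 / ((n : ℝ) + N) := by positivity
    have h3 : 1 / ((n : ℝ) + ((0 : ℕ) : ℝ)) = 1 / n := by simp
    rw [h3]
    calc 4 * (n : ℝ) ^ 2 * (1 / n - 1 / ((n : ℝ) + N)) ≤ 4 * (n : ℝ) ^ 2 * (1 / n) := by
          gcongr; linarith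
      _ = 4 * (n : ℝ) := by field_simp
  rw [tsum_of_nat_of_neg_add_one (f := fun j : ℤ =>
    ENNReal.ofReal ((n : ℝ) ^ 2 / ((n : ℝ) ^ 2 + (j : ℝ) ^ 2))) ENNReal.summable
    ENNReal.summable]
  have e8 : ENNReal.ofReal (8 * n) = ENNReal.ofReal (4 * n) + ENNReal.ofReal (4 * n) := by
    rw [← ENNReal.ofReal_add (by positivity) (by positivity)]; ring_nf
  rw [e8]
  refine add_le_add ?_ ?_
  · simpa using hnat
  · refine le_trans (ENNReal.tsum_le_tsum fun j => ENNReal.ofReal_le_ofReal ?_) hnat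
    have hj : (0 : ℝ) ≤ j := Nat.cast_nonneg j
    apply div_le_div_of_nonneg_left (by positivity) (by positivity)
    push_cast
    nlinarith

/-- two-dimensional lattice sum -/
lemma sum2 (n : ℕ) (hn : 1 ≤ n) :
    ∑' k : ℤ × ℤ, ENNReal.ofReal ((1 + ((k.1 : ℝ) ^ 2 + (k.2 : ℝ) ^ 2) / (n : ℝ) ^ 2)⁻¹ ^ 2) ≤
      ENNReal.ofReal (64 * (n : ℝ) ^ 2) := by
  have hn0 : (0 : ℝ) < n := by exact_mod_cast hn
  have h1 : ∀ k : ℤ × ℤ,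
      ENNReal.ofReal ((1 + ((k.1 : ℝ) ^ 2 + (k.2 : ℝ) ^ 2) / (n : ℝ) ^ 2)⁻¹ ^ 2) ≤
      ENNReal.ofReal ((n : ℝ) ^ 2 / ((n : ℝ) ^ 2 + (k.1 : ℝ) ^ 2)) *
      ENNReal.ofReal ((n : ℝ) ^ 2 / ((n : ℝ) ^ 2 + (k.2 : ℝ) ^ 2)) := by
    intro k
    rw [← ENNReal.ofReal_mul (by positivity)]
    refine ENNReal.ofReal_le_ofReal ?_
    set x := (k.1 : ℝ) ^ 2 with hx
    set y := (k.2 : ℝ) ^ 2 with hy
    have hx0 : 0 ≤ x := sq_nonneg _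
    have hy0 : 0 ≤ y := sq_nonneg _
    have e1 : (1 + (x + y) / (n : ℝ) ^ 2)⁻¹ = (n : ℝ) ^ 2 / ((n : ℝ) ^ 2 + (x + y)) := by
      field_simp
    rw [e1, div_pow, div_mul_div_comm]
    have e2 : ((n : ℝ) ^ 2) ^ 2 = (n : ℝ) ^ 2 * (n : ℝ) ^ 2 := by ring
    rw [e2]
    apply div_le_div_of_nonneg_left (by positivity) (by positivity)
    nlinarith [mul_nonneg hx0 hy0, mul_nonneg (sq_nonneg (n : ℝ)) hx0,
      mul_nonneg (sq_nonneg (n : ℝ)) hy0, sq_nonneg x, sq_nonneg y]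
  refine (ENNReal.tsum_le_tsum h1).trans ?_
  rw [ENNReal.tsum_prod (f := fun a b : ℤ =>
    ENNReal.ofReal ((n : ℝ) ^ 2 / ((n : ℝ) ^ 2 + (a : ℝ) ^ 2)) *
      ENNReal.ofReal ((n : ℝ) ^ 2 / ((n : ℝ) ^ 2 + (b : ℝ) ^ 2)))]
  simp only [ENNReal.tsum_mul_left, ENNReal.tsum_mul_right]
  refine (mul_le_mul' (sum1 n hn) (sum1 n hn)).trans (le_of_eq ?_)
  rw [← ENNReal.ofReal_mul (by positivity)]
  congr 1
  ring

/-- the weight `1 + |k|²/n²` -/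
noncomputable def ww (n : ℕ) (k : ℤ × ℤ) : ℝ :=
  1 + ((k.1 : ℝ) ^ 2 + (k.2 : ℝ) ^ 2) / (n : ℝ) ^ 2

lemma ww_pos (n : ℕ) (k : ℤ × ℤ) : 0 < ww n k := by unfold ww; positivity

lemma interp (a : ℤ × ℤ → ℝ≥0∞) (n : ℕ) (hn : 1 ≤ n) :
    (∑' k, a k ^ 4) ^ 3 ≤ (∑' k, a k ^ 6 * ENNReal.ofReal (ww n k)) ^ 2 *
      ENNReal.ofReal (64 * (n : ℝ) ^ 2) := by
  have hpq : (3 / 2 : ℝ).HolderConjugate 3 := by
    rw [Real.holderConjugate_iff]; norm_num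
  have h := hold hpq (fun k => (a k ^ 6 * ENNReal.ofReal (ww n k)) ^ (2 / 3 : ℝ))
    (fun k => (ENNReal.ofReal ((ww n k)⁻¹ ^ 2)) ^ (1 / 3 : ℝ))
  have e1 : ∀ k, (a k ^ 6 * ENNReal.ofReal (ww n k)) ^ (2 / 3 : ℝ) *
      (ENNReal.ofReal ((ww n k)⁻¹ ^ 2)) ^ (1 / 3 : ℝ) = a k ^ 4 := by
    intro k
    have hw := ww_pos n k
    rw [ENNReal.mul_rpow_of_nonneg _ _ (by norm_num), ENNReal.ofReal_rpow_of_pos hw,
      ENNReal.ofReal_rpow_of_pos (by positivity), mul_assoc,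
      ← ENNReal.ofReal_mul (by positivity)]
    have e2 : ww n k ^ (2 / 3 : ℝ) * ((ww n k)⁻¹ ^ 2) ^ (1 / 3 : ℝ) = 1 := by
      rw [← Real.rpow_natCast, ← Real.rpow_mul (by positivity), Real.inv_rpow hw.le]
      have : ((2 : ℕ) : ℝ) * (1 / 3 : ℝ) = 2 / 3 := by norm_num
      rw [this, mul_inv_cancel₀ (by positivity)]
    rw [e2, ENNReal.ofReal_one, mul_one, ← ENNReal.rpow_natCast, ← ENNReal.rpow_mul,
      ← ENNReal.rpow_natCast]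
    norm_num
  have e3 : ∀ k, ((a k ^ 6 * ENNReal.ofReal (ww n k)) ^ (2 / 3 : ℝ)) ^ (3 / 2 : ℝ) =
      a k ^ 6 * ENNReal.ofReal (ww n k) := by
    intro k
    rw [← ENNReal.rpow_mul]; norm_num
  have e4 : ∀ k, ((ENNReal.ofReal ((ww n k)⁻¹ ^ 2)) ^ (1 / 3 : ℝ)) ^ (3 : ℝ) =
      ENNReal.ofReal ((ww n k)⁻¹ ^ 2) := by
    intro k
    rw [← ENNReal.rpow_mul]; norm_num
  simp_rw [e1, e3, e4] at h
  have h3 : (∑' k, a k ^ 4) ^ 3 ≤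
      ((∑' k, a k ^ 6 * ENNReal.ofReal (ww n k)) ^ (1 / (3 / 2) : ℝ) *
        (∑' k, ENNReal.ofReal ((ww n k)⁻¹ ^ 2)) ^ (1 / 3 : ℝ)) ^ 3 := by
    gcongr
  refine h3.trans ?_
  rw [mul_pow, ← ENNReal.rpow_natCast, ← ENNReal.rpow_natCast, ← ENNReal.rpow_mul,
    ← ENNReal.rpow_mul]
  have n1 : (1 / (3 / 2) : ℝ) * ((3 : ℕ) : ℝ) = ((2 : ℕ) : ℝ) := by norm_num
  have n2 : (1 / 3 : ℝ) * ((3 : ℕ) : ℝ) = 1 := by norm_num
  rw [n1, n2, ENNReal.rpow_one, ENNReal.rpow_natCast]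
  gcongr
  exact sum2 n hn

end Pool.Agent.R216.BOU.Y
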