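import Pool.Agent.R216.BOU.Deriv
import Pool.Agent.R216.BOU.Young

/-! The trilinear term. -/

namespace Pool.Agent.R216.BOU

open MeasureTheory Set Filter Topology
open scoped ENNReal ComplexConjugate

/-- imaginary part of the pairing of the convolution with the velocity -/
noncomputable def tri (z : St) (k : ℤ × ℤ) : ℝ :=
  (conv z k 0 * conj (z k 0) + conv z k 1 * conj (z k 1)).im

/-- summand of the trilinear form -/
noncomputable def Bf (z : St) (k m : ℤ × ℤ) : ℝ :=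
  (dot k (z (k - m)) * (z m 0 * conj (z k 0) + z m 1 * conj (z k 1))).im

lemma pr_rhs {L ν g : ℝ} {z : St} (hz : IsState z) (k : ℤ × ℤ) :
    2 * pr (rhs L ν g z k) (z k) = -(2 * ν * (wt L k * vsq (z k))) +
      2 * g * (z k 2 * conj (z k 1)).re + 2 * (2 * Real.pi / L / L) * tri z k := by
  by_cases hk : k = 0
  · subst hk
    have h0 := hz.1.1
    have h1 := hz.1.2
    have e : rhs L ν g z 0 = 0 := by simp [rhs, Rk]
    rw [e]
    simp [pr, vsq, tri, h0, h1]
  · have hn : (nsq k : ℂ) ≠ 0 := by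
      have : nsq k ≠ 0 := by
        unfold nsq
        intro h
        apply hk
        have h1 : (k.1 : ℝ) = 0 := by nlinarith [sq_nonneg (k.1 : ℝ), sq_nonneg (k.2 : ℝ)]
        have h2 : (k.2 : ℝ) = 0 := by nlinarith [sq_nonneg (k.1 : ℝ), sq_nonneg (k.2 : ℝ)]
        exact Prod.ext (by exact_mod_cast h1) (by exact_mod_cast h2)
      exact_mod_cast this
    have hd := hz.2.1 k
    unfold dot at hd
    have hdc : (k.1 : ℂ) * conj (z k 0) + (k.2 : ℂ) * conj (z k 1) = 0 := by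
      have := congrArg conj hd
      simpa using this
    have e : (rhs L ν g z k 0 * conj (z k 0) + rhs L ν g z k 1 * conj (z k 1)) =
        -((ν : ℂ) * ((2 * Real.pi / L : ℝ) : ℂ) ^ 2 * (nsq k : ℂ)) *
          (z k 0 * conj (z k 0) + z k 1 * conj (z k 1)) + g * (z k 2 * conj (z k 1)) -
          Complex.I * ((2 * Real.pi / L / L : ℝ) : ℂ) *
            (conv z k 0 * conj (z k 0) + conv z k 1 * conj (z k 1)) := by
      simp only [rhs, Rk, if_neg hk]
      simp only [Matrix.cons_val_zero, Matrix.cons_val_one]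
      push_cast
      linear_combination (-((↑k.1 * (-Complex.I * (2 * ↑Real.pi / ↑L / ↑L) * conv z k 0) +
        ↑k.2 * (-Complex.I * (2 * ↑Real.pi / ↑L / ↑L) * conv z k 1 + ↑g * z k 2)) /
          (nsq k : ℂ))) * hdc
    have e2 : z k 0 * conj (z k 0) + z k 1 * conj (z k 1) = ((vsq (z k) : ℝ) : ℂ) := by
      rw [Complex.mul_conj, Complex.mul_conj, Complex.normSq_eq_norm_sq,
        Complex.normSq_eq_norm_sq, vsq]
      push_cast
      ring
    unfold pr
    rw [e, e2]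
    have e3 : -((ν : ℂ) * ((2 * Real.pi / L : ℝ) : ℂ) ^ 2 * (nsq k : ℂ)) *
        ((vsq (z k) : ℝ) : ℂ) = ((-(ν * (wt L k * vsq (z k))) : ℝ) : ℂ) := by
      unfold wt
      push_cast
      ring
    rw [e3, Complex.sub_re, Complex.add_re, Complex.ofReal_re, Complex.re_ofReal_mul, tri]
    have e4 : ∀ (c : ℝ) (X : ℂ), (Complex.I * (c : ℂ) * X).re = -(c * X.im) := by
      intro c X
      simp
    rw [e4]
    ring

lemma summable_coord {f : ℤ × ℤ → C3} (hf : Summable f) (j : Fin 3) :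
    Summable fun l => f l j :=
  hf.map (EuclideanSpace.proj j : EuclideanSpace ℂ (Fin 3) →L[ℂ] ℂ)
    (EuclideanSpace.proj j : EuclideanSpace ℂ (Fin 3) →L[ℂ] ℂ).continuous

lemma tsum_coord {f : ℤ × ℤ → C3} (hf : Summable f) (j : Fin 3) :
    (∑' l, f l) j = ∑' l, f l j :=
  (EuclideanSpace.proj j : EuclideanSpace ℂ (Fin 3) →L[ℂ] ℂ).map_tsum hf

lemma hasSum_tri (z : St) (k : ℤ × ℤ) : HasSum (fun m => Bf z k m) (tri z k) := by
  have hs := summable_cterm z k
  have h0 : HasSum (fun l => cterm z k l 0) (conv z k 0) := by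
    have := (summable_coord hs 0).hasSum
    rwa [← tsum_coord hs 0] at this
  have h1 : HasSum (fun l => cterm z k l 1) (conv z k 1) := by
    have := (summable_coord hs 1).hasSum
    rwa [← tsum_coord hs 1] at this
  have h2 := (h0.mul_right (conj (z k 0))).add (h1.mul_right (conj (z k 1)))
  have h3 := Complex.imCLM.hasSum h2
  have h4 := (Equiv.hasSum_iff (Equiv.subLeft k)).2 h3
  have e : (fun m => Bf z k m) = (fun l => Complex.imCLM
      (cterm z k l 0 * conj (z k 0) + cterm z k l 1 * conj (z k 1))) ∘ (Equiv.subLeft k) := by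
    funext m
    have h5 : k - (k - m) = m := by abel
    simp only [Function.comp, Equiv.subLeft_apply, Complex.imCLM_apply, cterm, Bf, h5,
      PiLp.smul_apply, smul_eq_mul]
    congr 1
    ring
  rw [e]
  exact h4

lemma Bf_antisymm {z : St} (hz : IsState z) (k m : ℤ × ℤ) : Bf z m k = -Bf z k m := by
  have h1 : ∀ j, z (m - k) j = conj (z (k - m) j) := by
    intro j
    have := hz.2.2 (k - m) j
    rwa [neg_sub] at this
  have h2 := hz.2.1 (k - m)
  unfold dot at h2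
  have h3 : dot k (z (k - m)) = dot m (z (k - m)) := by
    unfold dot
    simp only [Prod.fst_sub, Prod.snd_sub] at h2
    push_cast at h2
    linear_combination h2
  have h4 : dot m (z (m - k)) = conj (dot m (z (k - m))) := by
    unfold dot
    rw [h1, h1]
    simp
  unfold Bf
  rw [h4, h3]
  have h5 : conj (dot m (z (k - m))) * (z k 0 * conj (z m 0) + z k 1 * conj (z m 1)) =
      conj (dot m (z (k - m)) * (z m 0 * conj (z k 0) + z m 1 * conj (z k 1))) := by
    simp only [map_mul, map_add, Complex.conj_conj]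
    ring
  rw [h5, Complex.conj_im]

lemma sum_tri_eq {z : St} (hz : IsState z) (F : Finset (ℤ × ℤ)) :
    ∑ k ∈ F, tri z k = ∑ k ∈ F, ∑' m : {m // m ∉ F}, Bf z k m := by
  have h1 : ∀ k, tri z k = ∑ m ∈ F, Bf z k m + ∑' m : {m // m ∉ F}, Bf z k m := by
    intro k
    have := (hasSum_tri z k)
    rw [← this.tsum_eq]
    exact (this.summable.sum_add_tsum_subtype_compl F).symm
  have h2 : ∑ k ∈ F, ∑ m ∈ F, Bf z k m = 0 := by
    have h3 : ∑ k ∈ F, ∑ m ∈ F, Bf z k m = -∑ k ∈ F, ∑ m ∈ F, Bf z k m := by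
      calc ∑ k ∈ F, ∑ m ∈ F, Bf z k m = ∑ m ∈ F, ∑ k ∈ F, Bf z k m := Finset.sum_comm
        _ = ∑ m ∈ F, ∑ k ∈ F, -Bf z m k := by
          refine Finset.sum_congr rfl fun m _ => Finset.sum_congr rfl fun k _ => ?_
          rw [Bf_antisymm hz m k]
        _ = _ := by simp only [Finset.sum_neg_distrib]
    linarith
  rw [Finset.sum_congr rfl fun k _ => h1 k, Finset.sum_add_distrib, h2, zero_add]

/-- modulus of the velocity coefficient -/
noncomputable def al (z : St) (k : ℤ × ℤ) : ℝ := √(vsq (z k))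

lemma al_nonneg (z : St) (k : ℤ × ℤ) : 0 ≤ al z k := Real.sqrt_nonneg _

lemma norm_Bf_le (z : St) (k m : ℤ × ℤ) :
    ‖Bf z k m‖ ≤ (√(nsq k) * al z k) * (al z (k - m) * al z m) := by
  unfold Bf
  rw [Real.norm_eq_abs]
  refine (Complex.abs_im_le_norm _).trans ?_
  rw [norm_mul]
  have h1 : ‖dot k (z (k - m))‖ ≤ √(nsq k) * al z (k - m) := by
    unfold al
    rw [← Real.sqrt_mul (nsq_nonneg k)]
    exact Real.le_sqrt_of_sq_le (norm_dot_sq_le k _)
  have h2 : ‖z m 0 * conj (z k 0) + z m 1 * conj (z k 1)‖ ≤ al z m * al z k := by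
    refine (norm_add_le _ _).trans ?_
    rw [norm_mul, norm_mul, Complex.norm_conj, Complex.norm_conj]
    unfold al
    rw [← Real.sqrt_mul (vsq_nonneg _)]
    apply Real.le_sqrt_of_sq_le
    unfold vsq
    nlinarith [sq_nonneg (‖z m 0‖ * ‖z k 1‖ - ‖z m 1‖ * ‖z k 0‖)]
  calc ‖dot k (z (k - m))‖ * ‖z m 0 * conj (z k 0) + z m 1 * conj (z k 1)‖
      ≤ (√(nsq k) * al z (k - m)) * (al z m * al z k) :=
        mul_le_mul h1 h2 (norm_nonneg _) (mul_nonneg (Real.sqrt_nonneg _) (al_nonneg _ _))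
    _ = _ := by ring

/-- cube root of the modulus of the velocity coefficient -/
noncomputable def aa (z : St) (k : ℤ × ℤ) : ℝ≥0∞ := (ENNReal.ofReal (al z k)) ^ (1 / 3 : ℝ)

lemma aa_cube (z : St) (k : ℤ × ℤ) : aa z k ^ 3 = ENNReal.ofReal (al z k) := by
  unfold aa
  rw [← ENNReal.rpow_natCast, ← ENNReal.rpow_mul]
  norm_num

/-- tail version -/
noncomputable def bb (z : St) (F : Finset (ℤ × ℤ)) (k : ℤ × ℤ) : ℝ≥0∞ :=
  if k ∈ F then 0 else aa z k

/-- `∑ |k|² |û(k)|²` -/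
noncomputable def DD (z : St) : ℝ≥0∞ := ∑' k, ENNReal.ofReal (nsq k * vsq (z k))

lemma tri_bound {z : St} (hz : IsState z) (F : Finset (ℤ × ℤ)) :
    ‖∑ k ∈ F, tri z k‖ₑ ^ 2 ≤ DD z * (((∑' k, aa z k ^ 4) * ∑' k, bb z F k ^ 4) *
      ((∑' k, aa z k ^ 4) * ∑' k, bb z F k ^ 4) ^ (1 / 2 : ℝ)) := by
  rw [sum_tri_eq hz]
  have h1 : ‖∑ k ∈ F, ∑' m : {m // m ∉ F}, Bf z k m‖ₑ ≤
      ∑' k, ENNReal.ofReal (√(nsq k) * al z k) * ∑' m, aa z (k - m) ^ 3 * bb z F m ^ 3 := by
    refine (enorm_sum_le _ _).trans ?_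
    refine le_trans (Finset.sum_le_sum fun k _ => ?_) (ENNReal.sum_le_tsum F)
    refine enorm_tsum_le_tsum_enorm.trans ?_
    rw [← ENNReal.tsum_mul_left]
    have h2 : ∀ m : {m // m ∉ F}, ‖Bf z k m‖ₑ ≤ ENNReal.ofReal (√(nsq k) * al z k) *
        (aa z (k - m) ^ 3 * bb z F m ^ 3) := by
      intro m
      have e : bb z F m = aa z m := by unfold bb; rw [if_neg m.2]
      rw [e, aa_cube, aa_cube, ← ENNReal.ofReal_mul (al_nonneg _ _),
        ← ENNReal.ofReal_mul (mul_nonneg (Real.sqrt_nonneg _) (al_nonneg _ _)), ← ofReal_norm]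
      exact ENNReal.ofReal_le_ofReal (norm_Bf_le z k m)
    refine (ENNReal.tsum_le_tsum h2).trans ?_
    exact ENNReal.tsum_comp_le_tsum_of_injective Subtype.val_injective
      (fun m => ENNReal.ofReal (√(nsq k) * al z k) * (aa z (k - m) ^ 3 * bb z F m ^ 3))
  calc _ ≤ (∑' k, ENNReal.ofReal (√(nsq k) * al z k) *
        ∑' m, aa z (k - m) ^ 3 * bb z F m ^ 3) ^ 2 := by gcongr
    _ ≤ (∑' k, ENNReal.ofReal (√(nsq k) * al z k) ^ 2) *
        ∑' k, (∑' m, aa z (k - m) ^ 3 * bb z F m ^ 3) ^ 2 := Y.cs _ _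
    _ ≤ _ := by
      have e : ∑' k, ENNReal.ofReal (√(nsq k) * al z k) ^ 2 = DD z := by
        unfold DD
        refine tsum_congr fun k => ?_
        rw [← ENNReal.ofReal_pow (mul_nonneg (Real.sqrt_nonneg _) (al_nonneg _ _)), mul_pow, al,
          Real.sq_sqrt (nsq_nonneg k), Real.sq_sqrt (vsq_nonneg _)]
      rw [e]
      gcongr
      exact Y.young _ _

end Pool.Agent.R216.BOU
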