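import Pool.Agent.R216.BOU.Tri

/-! Domination and convergence of the trilinear term. -/

namespace Pool.Agent.R216.BOU

open MeasureTheory Set Filter Topology
open scoped ENNReal ComplexConjugate

lemma aa_six (z : St) (k : ℤ × ℤ) : aa z k ^ 6 = ENNReal.ofReal (vsq (z k)) := by
  have : aa z k ^ 6 = (aa z k ^ 3) ^ 2 := by ring
  rw [this, aa_cube, ← ENNReal.ofReal_pow (al_nonneg _ _), al, Real.sq_sqrt (vsq_nonneg _)]

lemma sum_aa {z : St} {M d : ℝ} (hM : 0 < M) (hd : 0 ≤ d) (hzM : uSq z ≤ M ^ 2)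
    (hD : DD z = ENNReal.ofReal d) :
    (∑' k, aa z k ^ 4) ^ 3 ≤ ENNReal.ofReal (1024 * M ^ 2 * (M ^ 2 + d)) := by
  set n : ℕ := ⌈√(1 + d / M ^ 2)⌉₊ with hn
  have hs1 : 1 ≤ √(1 + d / M ^ 2) := by
    rw [Real.one_le_sqrt]
    have : 0 ≤ d / M ^ 2 := by positivity
    linarith
  have hn1 : √(1 + d / M ^ 2) ≤ n := Nat.le_ceil _
  have hn2 : (n : ℝ) < √(1 + d / M ^ 2) + 1 := Nat.ceil_lt_add_one (by positivity)
  have hn0 : 1 ≤ n := by
    have : (1 : ℝ) ≤ n := hs1.trans hn1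
    exact_mod_cast this
  have hnR : (1 : ℝ) ≤ n := by exact_mod_cast hn0
  have hsq : √(1 + d / M ^ 2) ^ 2 = 1 + d / M ^ 2 := Real.sq_sqrt (by positivity)
  have hn3 : 1 + d / M ^ 2 ≤ (n : ℝ) ^ 2 := by
    rw [← hsq]; exact pow_le_pow_left₀ (by positivity) hn1 2
  have hn4 : (n : ℝ) ^ 2 ≤ 4 * (1 + d / M ^ 2) := by
    have h1 : (n : ℝ) ≤ 2 * √(1 + d / M ^ 2) := by linarith
    have h2 := pow_le_pow_left₀ (by positivity) h1 2
    rw [mul_pow, hsq] at h2
    linarith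
  have hdn : d / (n : ℝ) ^ 2 ≤ M ^ 2 := by
    rw [div_le_iff₀ (by positivity)]
    have h1 : d / M ^ 2 ≤ (n : ℝ) ^ 2 := by linarith
    rw [div_le_iff₀ (by positivity)] at h1
    linarith
  have h := Y.interp (aa z) n hn0
  have h2 : ∑' k, aa z k ^ 6 * ENNReal.ofReal (Y.ww n k) ≤ ENNReal.ofReal (2 * M ^ 2) := by
    have e : ∀ k, aa z k ^ 6 * ENNReal.ofReal (Y.ww n k) =
        ENNReal.ofReal (vsq (z k)) +
          ENNReal.ofReal (1 / (n : ℝ) ^ 2) * ENNReal.ofReal (nsq k * vsq (z k)) := by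
      intro k
      have hv := vsq_nonneg (z k)
      have hk := nsq_nonneg k
      rw [aa_six, ← ENNReal.ofReal_mul hv, ← ENNReal.ofReal_mul (by positivity),
        ← ENNReal.ofReal_add hv (by positivity)]
      congr 1
      unfold Y.ww nsq
      ring
    simp_rw [e]
    rw [ENNReal.tsum_add, ENNReal.tsum_mul_left]
    change _ + ENNReal.ofReal (1 / (n : ℝ) ^ 2) * DD z ≤ _
    have h5 : 0 ≤ ∑' k, vsq (z k) := uSq_nonneg z
    rw [hD, ← ENNReal.ofReal_tsum_of_nonneg (fun k => vsq_nonneg _) (summable_vsq z),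
      ← ENNReal.ofReal_mul (by positivity), ← ENNReal.ofReal_add h5 (by positivity)]
    refine ENNReal.ofReal_le_ofReal ?_
    have h3 : 1 / (n : ℝ) ^ 2 * d = d / (n : ℝ) ^ 2 := by ring
    rw [h3]
    have h4 : ∑' k, vsq (z k) ≤ M ^ 2 := hzM
    linarith
  refine h.trans ?_
  calc _ ≤ ENNReal.ofReal (2 * M ^ 2) ^ 2 * ENNReal.ofReal (64 * (n : ℝ) ^ 2) := by gcongr
    _ ≤ _ := by
      rw [← ENNReal.ofReal_pow (by positivity), ← ENNReal.ofReal_mul (by positivity)]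
      refine ENNReal.ofReal_le_ofReal ?_
      have e : 1024 * M ^ 2 * (M ^ 2 + d) =
          (2 * M ^ 2) ^ 2 * (64 * (4 * (1 + d / M ^ 2))) := by
        field_simp
        ring
      rw [e]
      gcongr

lemma bb_le (z : St) (F : Finset (ℤ × ℤ)) (k : ℤ × ℤ) : bb z F k ≤ aa z k := by
  unfold bb; split_ifs <;> simp

lemma tri_dom {z : St} (hz : IsState z) {M : ℝ} (hM : 0 < M) (hzM : uSq z ≤ M ^ 2)
    (F : Finset (ℤ × ℤ)) :
    ‖∑ k ∈ F, tri z k‖ₑ ≤ ENNReal.ofReal (32 * M) * (ENNReal.ofReal (M ^ 2) + DD z) := by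
  by_cases hD : DD z = ⊤
  · rw [hD, add_top, ENNReal.mul_top (by simpa using hM)]
    exact le_top
  · set d := (DD z).toReal with hd
    have hd0 : 0 ≤ d := ENNReal.toReal_nonneg
    have hDd : DD z = ENNReal.ofReal d := (ENNReal.ofReal_toReal hD).symm
    have h1 := tri_bound hz F
    have h2 := sum_aa hM hd0 hzM hDd
    set A := ∑' k, aa z k ^ 4 with hA
    have hB : ∑' k, bb z F k ^ 4 ≤ A := ENNReal.tsum_le_tsum fun k => by
      gcongr; exact bb_le z F k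
    have h3 : (A * ∑' k, bb z F k ^ 4) * (A * ∑' k, bb z F k ^ 4) ^ (1 / 2 : ℝ) ≤ A ^ 3 := by
      calc _ ≤ (A * A) * (A * A) ^ (1 / 2 : ℝ) := by gcongr
        _ = A ^ 3 := by
          rw [← sq, ← ENNReal.rpow_natCast A 2, ← ENNReal.rpow_mul]
          norm_num
          ring
    have h4 : ‖∑ k ∈ F, tri z k‖ₑ ^ 2 ≤ ENNReal.ofReal ((32 * M * (M ^ 2 + d)) ^ 2) := by
      refine h1.trans ((mul_le_mul_right (h3.trans h2) _).trans ?_)
      rw [hDd, ← ENNReal.ofReal_mul hd0]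
      refine ENNReal.ofReal_le_ofReal ?_
      have e : (32 * M * (M ^ 2 + d)) ^ 2 = 1024 * M ^ 2 * (M ^ 2 + d) * (M ^ 2 + d) := by ring
      rw [e, mul_comm]
      have : d ≤ M ^ 2 + d := by nlinarith [sq_nonneg M]
      gcongr
    rw [hDd, ← ENNReal.ofReal_add (by positivity) hd0, ← ENNReal.ofReal_mul (by positivity)]
    rw [ENNReal.ofReal_pow (by positivity)] at h4
    exact (ENNReal.pow_le_pow_left_iff (by norm_num)).1 h4

lemma tri_tendsto {z : St} (hz : IsState z) (hD : DD z ≠ ⊤) :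
    Tendsto (fun F : Finset (ℤ × ℤ) => ‖∑ k ∈ F, tri z k‖ₑ) atTop (𝓝 0) := by
  set d := (DD z).toReal with hd
  have hd0 : 0 ≤ d := ENNReal.toReal_nonneg
  have hDd : DD z = ENNReal.ofReal d := (ENNReal.ofReal_toReal hD).symm
  have hM : 0 < uSq z + 1 := by have := uSq_nonneg z; linarith
  have hzM : uSq z ≤ (uSq z + 1) ^ 2 := by nlinarith [uSq_nonneg z]
  have h2 := sum_aa hM hd0 hzM hDd
  set A := ∑' k, aa z k ^ 4 with hA
  have hAfin : A ≠ ⊤ := by
    intro h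
    rw [h] at h2
    simp at h2
  have hB : Tendsto (fun F : Finset (ℤ × ℤ) => ∑' k, bb z F k ^ 4) atTop (𝓝 0) := by
    have h3 := ENNReal.tendsto_tsum_compl_atTop_zero hAfin
    refine h3.congr fun F => ?_
    refine (tsum_subtype {m : ℤ × ℤ | m ∉ F} (fun k => aa z k ^ 4)).trans ?_
    refine tsum_congr fun k => ?_
    by_cases hk : k ∈ F
    · simp [bb, hk]
    · simp [bb, hk]
  have hAB : Tendsto (fun F : Finset (ℤ × ℤ) => A * ∑' k, bb z F k ^ 4) atTop (𝓝 0) := by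
    have := ENNReal.Tendsto.const_mul hB (Or.inr hAfin)
    rwa [mul_zero] at this
  have hABr : Tendsto (fun F : Finset (ℤ × ℤ) => (A * ∑' k, bb z F k ^ 4) ^ (1 / 2 : ℝ))
      atTop (𝓝 0) := by
    have := (ENNReal.continuous_rpow_const (y := (1 / 2 : ℝ))).tendsto 0
    rw [ENNReal.zero_rpow_of_pos (by norm_num)] at this
    exact this.comp hAB
  have hprod : Tendsto (fun F : Finset (ℤ × ℤ) => DD z * ((A * ∑' k, bb z F k ^ 4) *
      (A * ∑' k, bb z F k ^ 4) ^ (1 / 2 : ℝ))) atTop (𝓝 0) := by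
    have h5 := ENNReal.Tendsto.mul hAB (Or.inr ENNReal.zero_ne_top) hABr
      (Or.inr ENNReal.zero_ne_top)
    rw [mul_zero] at h5
    have h6 := ENNReal.Tendsto.const_mul h5 (Or.inr hD)
    rwa [mul_zero] at h6
  have hsq : Tendsto (fun F : Finset (ℤ × ℤ) => ‖∑ k ∈ F, tri z k‖ₑ ^ 2) atTop (𝓝 0) :=
    tendsto_of_tendsto_of_tendsto_of_le_of_le tendsto_const_nhds hprod
      (fun F => zero_le) (fun F => tri_bound hz F)
  have h7 := ((ENNReal.continuous_rpow_const (y := (1 / 2 : ℝ))).tendsto 0).comp hsq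
  rw [ENNReal.zero_rpow_of_pos (by norm_num)] at h7
  refine h7.congr fun F => ?_
  simp only [Function.comp]
  rw [← ENNReal.rpow_natCast, ← ENNReal.rpow_mul]
  norm_num

end Pool.Agent.R216.BOU
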